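import Mathlib

set_option autoImplicit false
set_option linter.unusedSectionVars false

/-! # The algebraic core: matrices attached to a multigraph -/

namespace Pool.Agent.R547.EQ

open Finset Matrix
open scoped Classical

section
variable {V E : Type} [Fintype V] [Fintype E] (ends : E → V × V)

/-- `v` is an end of the edge `f`. -/
def Inc (f : E) (v : V) : Prop := (ends f).1 = v ∨ (ends f).2 = v

/-- two different edges with a common end. -/
def Adje (f g : E) : Prop := f ≠ g ∧ ∃ v, Inc ends f v ∧ Inc ends g v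

theorem Adje.symm {ends : E → V × V} {f g : E} (h : Adje ends f g) : Adje ends g f :=
  ⟨h.1.symm, h.2.imp fun _ hv => ⟨hv.2, hv.1⟩⟩

theorem adje_comm (f g : E) : Adje ends f g ↔ Adje ends g f := ⟨Adje.symm, Adje.symm⟩

variable {R : Type} [CommRing R]

/-- The symmetric matrix. -/
noncomputable def Smat (w : E → E → R) : Matrix E E R := fun f g =>
  (if f = g then 1 + ∑ h, (if Adje ends f h then 1 + w h f ^ 2 else 0) else 0) +
    (if Adje ends f g then w f g + w g f else 0)

variable {r : ℕ} (v₀ : V)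

/-- The right-hand side. -/
noncomputable def Hmat (η : E → Fin r → R) : Matrix E (Fin r) R := fun f i =>
  if Inc ends f v₀ then η f i else 0

/-- The matrix of the labels. -/
noncomputable def Tmat (w : E → E → R) (η : E → Fin r → R) : Matrix E (Fin r) R :=
  (Smat ends w).adjugate * Hmat ends v₀ η

/-- The part of `Tmat` at `v`. -/
noncomputable def Tv (w : E → E → R) (η : E → Fin r → R) (v : V) : Matrix E (Fin r) R :=
  fun f i => if Inc ends f v then Tmat ends v₀ w η f i else 0

/-- The Gram determinant of `Tv`. -/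
noncomputable def pdet (w : E → E → R) (η : E → Fin r → R) (v : V) : R :=
  ((Tv ends v₀ w η v)ᵀ * Tv ends v₀ w η v).det

variable {R' : Type} [CommRing R'] (φ : R →+* R')

theorem Smat_map (w : E → E → R) :
    (Smat ends w).map φ = Smat ends (fun f g => φ (w f g)) := by
  ext f g
  simp only [Smat, Matrix.map_apply, map_add, apply_ite φ, map_zero, map_sum, map_one, map_pow]

theorem Hmat_map (η : E → Fin r → R) :
    (Hmat ends v₀ η).map φ = Hmat ends v₀ (fun f i => φ (η f i)) := by
  ext f i
  simp only [Hmat, Matrix.map_apply, apply_ite φ, map_zero]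

theorem Tmat_map (w : E → E → R) (η : E → Fin r → R) :
    (Tmat ends v₀ w η).map φ =
      Tmat ends v₀ (fun f g => φ (w f g)) (fun f i => φ (η f i)) := by
  unfold Tmat
  rw [Matrix.map_mul, Hmat_map, ← Smat_map]
  congr 1
  exact RingHom.map_adjugate φ _

theorem Tv_map (w : E → E → R) (η : E → Fin r → R) (v : V) :
    (Tv ends v₀ w η v).map φ =
      Tv ends v₀ (fun f g => φ (w f g)) (fun f i => φ (η f i)) v := by
  ext f i
  have := congrFun (congrFun (Tmat_map ends v₀ φ w η) f) i
  simp only [Matrix.map_apply] at this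
  simp only [Tv, Matrix.map_apply, apply_ite φ, map_zero, this]

theorem pdet_map (w : E → E → R) (η : E → Fin r → R) (v : V) :
    φ (pdet ends v₀ w η v) = pdet ends v₀ (fun f g => φ (w f g)) (fun f i => φ (η f i)) v := by
  unfold pdet
  rw [RingHom.map_det, ← Tv_map]
  congr 1
  rw [RingHom.mapMatrix_apply, Matrix.map_mul, Matrix.transpose_map]

end

/-! ### Positivity -/

section Pos
variable {V E : Type} [Fintype V] [Fintype E] (ends : E → V × V)

/-- The matrix times a vector. -/
theorem Smat_mulVec {R : Type} [CommRing R] (w : E → E → R) (y : E → R) (f : E) :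
    (Smat ends w *ᵥ y) f = (1 + ∑ h, (if Adje ends f h then 1 + w h f ^ 2 else 0)) * y f +
      ∑ g, (if Adje ends f g then (w f g + w g f) * y g else 0) := by
  rw [Matrix.mulVec, dotProduct]
  simp only [Smat, add_mul, Finset.sum_add_distrib, ite_mul, zero_mul]
  congr 1
  rw [Finset.sum_ite_eq]
  simp

/-- The quadratic form of the matrix is a sum of squares. -/
theorem Smat_form {R : Type} [CommRing R] (w : E → E → R) (y : E → R) :
    y ⬝ᵥ (Smat ends w *ᵥ y) = ∑ f, y f ^ 2 +
      ∑ f, ∑ g, (if Adje ends f g then (y f + w f g * y g) ^ 2 else 0) := by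
  have h1 : ∀ f, y f * (Smat ends w *ᵥ y) f = y f ^ 2 +
      (∑ g, (if Adje ends f g then y f ^ 2 + w f g * y f * y g else 0) +
       ∑ g, (if Adje ends f g then w g f ^ 2 * y f ^ 2 + w g f * y f * y g else 0)) := by
    intro f
    rw [Smat_mulVec, ← Finset.sum_add_distrib, mul_add, add_mul, one_mul, mul_add, Finset.sum_mul,
      Finset.mul_sum, Finset.mul_sum, add_assoc, ← Finset.sum_add_distrib]
    congr 1
    · ring
    · refine Finset.sum_congr rfl fun g _ => ?_
      split_ifs <;> ring
  rw [dotProduct, Finset.sum_congr rfl fun f _ => h1 f, Finset.sum_add_distrib,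
    Finset.sum_add_distrib]
  congr 1
  rw [Finset.sum_comm (f := fun f g => if Adje ends f g then w g f ^ 2 * y f ^ 2 +
    w g f * y f * y g else 0), ← Finset.sum_add_distrib]
  refine Finset.sum_congr rfl fun f _ => ?_
  rw [← Finset.sum_add_distrib]
  refine Finset.sum_congr rfl fun g _ => ?_
  by_cases h : Adje ends f g
  · rw [if_pos h, if_pos h.symm, if_pos h]
    ring
  · rw [if_neg h, if_neg (fun h' => h h'.symm), if_neg h, add_zero]

theorem Smat_form_nonneg (w : E → E → ℤ) (y : E → ℤ) : 0 ≤ y ⬝ᵥ (Smat ends w *ᵥ y) := by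
  rw [Smat_form]
  refine add_nonneg (Finset.sum_nonneg fun f _ => sq_nonneg _)
    (Finset.sum_nonneg fun f _ => Finset.sum_nonneg fun g _ => ?_)
  split_ifs
  · exact sq_nonneg _
  · exact le_refl _

theorem Smat_form_zero (w : E → E → ℤ) (y : E → ℤ) (h : y ⬝ᵥ (Smat ends w *ᵥ y) = 0) :
    y = 0 := by
  rw [Smat_form] at h
  have h1 : 0 ≤ ∑ f, ∑ g, (if Adje ends f g then (y f + w f g * y g) ^ 2 else 0) := by
    refine Finset.sum_nonneg fun f _ => Finset.sum_nonneg fun g _ => ?_
    split_ifs
    · exact sq_nonneg _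
    · exact le_refl _
  have h2 : ∑ f, y f ^ 2 ≤ 0 := by linarith
  have h3 := (Finset.sum_eq_zero_iff_of_nonneg (fun f _ => sq_nonneg (y f))).1
    (le_antisymm h2 (Finset.sum_nonneg fun f _ => sq_nonneg (y f)))
  funext f
  have := h3 f (mem_univ f)
  simpa using this

theorem Smat_det_ne_zero (w : E → E → ℤ) : (Smat ends w).det ≠ 0 := by
  intro h
  obtain ⟨y, hy, hy0⟩ := Matrix.exists_mulVec_eq_zero_iff.2 h
  exact hy (Smat_form_zero ends w y (by rw [hy0, dotProduct_zero]))

theorem Smat_symm {R : Type} [CommRing R] (w : E → E → R) (f g : E) :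
    Smat ends w f g = Smat ends w g f := by
  unfold Smat
  by_cases h : f = g
  · subst h; rfl
  · have h' : ¬ g = f := fun e => h e.symm
    by_cases h2 : Adje ends f g
    · rw [if_neg h, if_neg h', if_pos h2, if_pos h2.symm, add_comm (w f g)]
    · have h3 : ¬ Adje ends g f := fun e => h2 e.symm
      rw [if_neg h, if_neg h', if_neg h2, if_neg h3]

theorem Smat_eq_zero {R : Type} [CommRing R] (w : E → E → R) (f g : E)
    (h : ¬ ∃ v, Inc ends f v ∧ Inc ends g v) : Smat ends w f g = 0 := by
  have h1 : f ≠ g := by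
    rintro rfl
    exact h ⟨(ends f).1, Or.inl rfl, Or.inl rfl⟩
  have h2 : ¬ Adje ends f g := fun h' => h h'.2
  simp [Smat, h1, h2]

variable {r : ℕ} (v₀ : V)

theorem Smat_Tmat {R : Type} [CommRing R] (w : E → E → R) (η : E → Fin r → R)
    (x : Fin r → R) (f : E) :
    (Smat ends w *ᵥ (Tmat ends v₀ w η *ᵥ x)) f =
      (Smat ends w).det * (Hmat ends v₀ η *ᵥ x) f := by
  unfold Tmat
  rw [Matrix.mulVec_mulVec, ← Matrix.mul_assoc, Matrix.mul_adjugate, Matrix.smul_mul,
    Matrix.one_mul, Matrix.smul_mulVec]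
  rfl

/-- The Gram determinant does not vanish if the labels at `v` determine the vector. -/
theorem pdet_ne_zero (w : E → E → ℤ) (η : E → Fin r → ℤ) (v : V)
    (h : ∀ x : Fin r → ℤ, (∀ f, Inc ends f v → (Tmat ends v₀ w η *ᵥ x) f = 0) → x = 0) :
    pdet ends v₀ w η v ≠ 0 := by
  intro hdet
  obtain ⟨x, hx, hx0⟩ := Matrix.exists_mulVec_eq_zero_iff.2 hdet
  refine hx (h x ?_)
  have h1 : Tv ends v₀ w η v *ᵥ x = 0 := by
    have h2 : (Tv ends v₀ w η v *ᵥ x) ⬝ᵥ (Tv ends v₀ w η v *ᵥ x) = 0 := by
      have h3 : x ⬝ᵥ (((Tv ends v₀ w η v)ᵀ * Tv ends v₀ w η v) *ᵥ x) = 0 := by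
        rw [hx0, dotProduct_zero]
      rw [← Matrix.mulVec_mulVec, Matrix.dotProduct_mulVec, Matrix.vecMul_transpose] at h3
      exact h3
    exact dotProduct_self_eq_zero.1 h2
  intro f hf
  have h2 := congrFun h1 f
  rw [Matrix.mulVec, dotProduct] at h2 ⊢
  simp only [Tv, if_pos hf, Pi.zero_apply] at h2
  exact h2

/-- Conversely, if the Gram determinant does not vanish, then the labels at `v` determine the
vector. -/
theorem eq_zero_of_pdet (w : E → E → ℤ) (η : E → Fin r → ℤ) (v : V)
    (hdet : pdet ends v₀ w η v ≠ 0) (x : Fin r → ℤ)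
    (h : ∀ f, Inc ends f v → (Tmat ends v₀ w η *ᵥ x) f = 0) : x = 0 := by
  have h1 : Tv ends v₀ w η v *ᵥ x = 0 := by
    funext f
    by_cases hf : Inc ends f v
    · have h2 := h f hf
      rw [Matrix.mulVec, dotProduct] at h2 ⊢
      simp only [Tv, if_pos hf, Pi.zero_apply]
      exact h2
    · rw [Matrix.mulVec, dotProduct]
      simp only [Tv, if_neg hf, Pi.zero_apply, zero_mul, Finset.sum_const_zero]
  by_contra hx
  refine hdet (Matrix.exists_mulVec_eq_zero_iff.1 ⟨x, hx, ?_⟩)
  rw [← Matrix.mulVec_mulVec, h1, Matrix.mulVec_zero]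

end Pos

/-! ### Generic choice of the parameters -/

section Generic
variable {V E : Type} [Fintype V] [Fintype E] (ends : E → V × V) {r : ℕ} (v₀ : V)

theorem exists_generic (h : ∀ v : V, ∃ (w : E → E → ℤ) (η : E → Fin r → ℤ),
      pdet ends v₀ w η v ≠ 0) :
    ∃ (w : E → E → ℤ) (η : E → Fin r → ℤ), ∀ v, pdet ends v₀ w η v ≠ 0 := by
  let I := (E × E) ⊕ (E × Fin r)
  let W : E → E → MvPolynomial I ℤ := fun f g => MvPolynomial.X (Sum.inl (f, g))
  let N : E → Fin r → MvPolynomial I ℤ := fun f i => MvPolynomial.X (Sum.inr (f, i))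
  have hev : ∀ (z : I → ℤ) (v : V), MvPolynomial.eval z (pdet ends v₀ W N v) =
      pdet ends v₀ (fun f g => z (Sum.inl (f, g))) (fun f i => z (Sum.inr (f, i))) v := by
    intro z v
    have := pdet_map ends v₀ (MvPolynomial.eval z) W N v
    rw [this]
    simp only [W, N, MvPolynomial.eval_X]
  have hne : ∀ v, pdet ends v₀ W N v ≠ 0 := by
    intro v h0
    obtain ⟨w, η, hw⟩ := h v
    apply hw
    have := hev (Sum.elim (fun p => w p.1 p.2) (fun p => η p.1 p.2)) v
    rw [h0, map_zero] at this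
    simpa using this.symm
  have hprod : ∏ v, pdet ends v₀ W N v ≠ 0 := Finset.prod_ne_zero_iff.2 fun v _ => hne v
  obtain ⟨z, hz⟩ : ∃ z : I → ℤ, MvPolynomial.eval z (∏ v, pdet ends v₀ W N v) ≠ 0 := by
    by_contra hcon
    push Not at hcon
    exact hprod (MvPolynomial.funext fun z => by rw [hcon z, map_zero])
  refine ⟨fun f g => z (Sum.inl (f, g)), fun f i => z (Sum.inr (f, i)), fun v => ?_⟩
  rw [← hev]
  rw [map_prod] at hz
  exact Finset.prod_ne_zero_iff.1 hz v (mem_univ v)

end Generic

end Pool.Agent.R547.EQ
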