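import Mathlib

set_option autoImplicit false

/-! # The arithmetic of the Petersen graph -/

namespace Pool.Agent.R547.EQ

theorem edge_le (x a b c d : ℕ) (h1 : x + (a + b) = 2) (h2 : x + (c + d) = 2)
    (h3 : 2 ≤ (a + b) + (c + d)) : x ≤ 1 := by omega

theorem petersen_arith (x01 x12 x23 x34 x40 x05 x16 x27 x38 x49 x57 x68 x79 x85 x96 : ℕ)
    (v0 : 2 ≤ x01 + x40 + x05)
    (v1 : 2 ≤ x01 + x12 + x16)
    (v2 : 2 ≤ x12 + x23 + x27)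
    (v3 : 2 ≤ x23 + x34 + x38)
    (v4 : 2 ≤ x34 + x40 + x49)
    (v5 : 2 ≤ x05 + x57 + x85)
    (v6 : 2 ≤ x16 + x68 + x96)
    (v7 : 2 ≤ x27 + x57 + x79)
    (v8 : 2 ≤ x38 + x68 + x85)
    (v9 : 2 ≤ x49 + x79 + x96)
    (w01 : 2 ≤ (x40 + x05) + (x12 + x16))
    (w12 : 2 ≤ (x01 + x16) + (x23 + x27))
    (w23 : 2 ≤ (x12 + x27) + (x34 + x38))
    (w34 : 2 ≤ (x23 + x38) + (x40 + x49))
    (w40 : 2 ≤ (x34 + x49) + (x01 + x05))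
    (w05 : 2 ≤ (x01 + x40) + (x57 + x85))
    (w16 : 2 ≤ (x01 + x12) + (x68 + x96))
    (w27 : 2 ≤ (x12 + x23) + (x57 + x79))
    (w38 : 2 ≤ (x23 + x34) + (x68 + x85))
    (w49 : 2 ≤ (x34 + x40) + (x79 + x96))
    (w57 : 2 ≤ (x05 + x85) + (x27 + x79))
    (w68 : 2 ≤ (x16 + x96) + (x38 + x85))
    (w79 : 2 ≤ (x27 + x57) + (x49 + x96))
    (w85 : 2 ≤ (x38 + x68) + (x05 + x57))
    (w96 : 2 ≤ (x49 + x79) + (x16 + x68))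
    (c0 : 2 ≤ x01 + x23 + x49 + x57 + x68)
    (c1 : 2 ≤ x01 + x34 + x27 + x85 + x96)
    (c2 : 2 ≤ x12 + x40 + x38 + x57 + x96)
    (c3 : 2 ≤ x23 + x40 + x16 + x79 + x85)
    (c4 : 2 ≤ x12 + x34 + x05 + x68 + x79)
    (c5 : 2 ≤ x05 + x16 + x27 + x38 + x49)
    (hlt : x01 + x12 + x23 + x34 + x40 + x05 + x16 + x27 + x38 + x49 + x57 + x68 + x79 + x85 + x96 < 11) : False := by
  have d0 : x01 + x40 + x05 = 2 := by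
    clear w01 w12 w23 w34 w40 w05 w16 w27 w38 w49 w57 w68 w79 w85 w96 c0 c1 c2 c3 c4 c5
    omega
  have d1 : x01 + x12 + x16 = 2 := by
    clear w01 w12 w23 w34 w40 w05 w16 w27 w38 w49 w57 w68 w79 w85 w96 c0 c1 c2 c3 c4 c5
    omega
  have d2 : x12 + x23 + x27 = 2 := by
    clear w01 w12 w23 w34 w40 w05 w16 w27 w38 w49 w57 w68 w79 w85 w96 c0 c1 c2 c3 c4 c5
    omega
  have d3 : x23 + x34 + x38 = 2 := by
    clear w01 w12 w23 w34 w40 w05 w16 w27 w38 w49 w57 w68 w79 w85 w96 c0 c1 c2 c3 c4 c5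
    omega
  have d4 : x34 + x40 + x49 = 2 := by
    clear w01 w12 w23 w34 w40 w05 w16 w27 w38 w49 w57 w68 w79 w85 w96 c0 c1 c2 c3 c4 c5
    omega
  have d5 : x05 + x57 + x85 = 2 := by
    clear w01 w12 w23 w34 w40 w05 w16 w27 w38 w49 w57 w68 w79 w85 w96 c0 c1 c2 c3 c4 c5
    omega
  have d6 : x16 + x68 + x96 = 2 := by
    clear w01 w12 w23 w34 w40 w05 w16 w27 w38 w49 w57 w68 w79 w85 w96 c0 c1 c2 c3 c4 c5
    omega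
  have d7 : x27 + x57 + x79 = 2 := by
    clear w01 w12 w23 w34 w40 w05 w16 w27 w38 w49 w57 w68 w79 w85 w96 c0 c1 c2 c3 c4 c5
    omega
  have d8 : x38 + x68 + x85 = 2 := by
    clear w01 w12 w23 w34 w40 w05 w16 w27 w38 w49 w57 w68 w79 w85 w96 c0 c1 c2 c3 c4 c5
    omega
  have d9 : x49 + x79 + x96 = 2 := by
    clear w01 w12 w23 w34 w40 w05 w16 w27 w38 w49 w57 w68 w79 w85 w96 c0 c1 c2 c3 c4 c5
    omega
  clear hlt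
  have y01 : x01 ≤ 1 := edge_le x01 x40 x05 x12 x16
    (by clear w01 w12 w23 w34 w40 w05 w16 w27 w38 w49 w57 w68 w79 w85 w96 c0 c1 c2 c3 c4 c5 d1 d2 d3 d4 d5 d6 d7 d8 d9; omega)
    (by clear w01 w12 w23 w34 w40 w05 w16 w27 w38 w49 w57 w68 w79 w85 w96 c0 c1 c2 c3 c4 c5 d0 d2 d3 d4 d5 d6 d7 d8 d9; omega) w01
  have y12 : x12 ≤ 1 := edge_le x12 x01 x16 x23 x27
    (by clear w01 w12 w23 w34 w40 w05 w16 w27 w38 w49 w57 w68 w79 w85 w96 c0 c1 c2 c3 c4 c5 d0 d2 d3 d4 d5 d6 d7 d8 d9; omega)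
    (by clear w01 w12 w23 w34 w40 w05 w16 w27 w38 w49 w57 w68 w79 w85 w96 c0 c1 c2 c3 c4 c5 d0 d1 d3 d4 d5 d6 d7 d8 d9; omega) w12
  have y23 : x23 ≤ 1 := edge_le x23 x12 x27 x34 x38
    (by clear w01 w12 w23 w34 w40 w05 w16 w27 w38 w49 w57 w68 w79 w85 w96 c0 c1 c2 c3 c4 c5 d0 d1 d3 d4 d5 d6 d7 d8 d9; omega)
    (by clear w01 w12 w23 w34 w40 w05 w16 w27 w38 w49 w57 w68 w79 w85 w96 c0 c1 c2 c3 c4 c5 d0 d1 d2 d4 d5 d6 d7 d8 d9; omega) w23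
  have y34 : x34 ≤ 1 := edge_le x34 x23 x38 x40 x49
    (by clear w01 w12 w23 w34 w40 w05 w16 w27 w38 w49 w57 w68 w79 w85 w96 c0 c1 c2 c3 c4 c5 d0 d1 d2 d4 d5 d6 d7 d8 d9; omega)
    (by clear w01 w12 w23 w34 w40 w05 w16 w27 w38 w49 w57 w68 w79 w85 w96 c0 c1 c2 c3 c4 c5 d0 d1 d2 d3 d5 d6 d7 d8 d9; omega) w34
  have y40 : x40 ≤ 1 := edge_le x40 x34 x49 x01 x05
    (by clear w01 w12 w23 w34 w40 w05 w16 w27 w38 w49 w57 w68 w79 w85 w96 c0 c1 c2 c3 c4 c5 d0 d1 d2 d3 d5 d6 d7 d8 d9; omega)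
    (by clear w01 w12 w23 w34 w40 w05 w16 w27 w38 w49 w57 w68 w79 w85 w96 c0 c1 c2 c3 c4 c5 d1 d2 d3 d4 d5 d6 d7 d8 d9; omega) w40
  have y05 : x05 ≤ 1 := edge_le x05 x01 x40 x57 x85
    (by clear w01 w12 w23 w34 w40 w05 w16 w27 w38 w49 w57 w68 w79 w85 w96 c0 c1 c2 c3 c4 c5 d1 d2 d3 d4 d5 d6 d7 d8 d9; omega)
    (by clear w01 w12 w23 w34 w40 w05 w16 w27 w38 w49 w57 w68 w79 w85 w96 c0 c1 c2 c3 c4 c5 d0 d1 d2 d3 d4 d6 d7 d8 d9; omega) w05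
  have y16 : x16 ≤ 1 := edge_le x16 x01 x12 x68 x96
    (by clear w01 w12 w23 w34 w40 w05 w16 w27 w38 w49 w57 w68 w79 w85 w96 c0 c1 c2 c3 c4 c5 d0 d2 d3 d4 d5 d6 d7 d8 d9; omega)
    (by clear w01 w12 w23 w34 w40 w05 w16 w27 w38 w49 w57 w68 w79 w85 w96 c0 c1 c2 c3 c4 c5 d0 d1 d2 d3 d4 d5 d7 d8 d9; omega) w16
  have y27 : x27 ≤ 1 := edge_le x27 x12 x23 x57 x79
    (by clear w01 w12 w23 w34 w40 w05 w16 w27 w38 w49 w57 w68 w79 w85 w96 c0 c1 c2 c3 c4 c5 d0 d1 d3 d4 d5 d6 d7 d8 d9; omega)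
    (by clear w01 w12 w23 w34 w40 w05 w16 w27 w38 w49 w57 w68 w79 w85 w96 c0 c1 c2 c3 c4 c5 d0 d1 d2 d3 d4 d5 d6 d8 d9; omega) w27
  have y38 : x38 ≤ 1 := edge_le x38 x23 x34 x68 x85
    (by clear w01 w12 w23 w34 w40 w05 w16 w27 w38 w49 w57 w68 w79 w85 w96 c0 c1 c2 c3 c4 c5 d0 d1 d2 d4 d5 d6 d7 d8 d9; omega)
    (by clear w01 w12 w23 w34 w40 w05 w16 w27 w38 w49 w57 w68 w79 w85 w96 c0 c1 c2 c3 c4 c5 d0 d1 d2 d3 d4 d5 d6 d7 d9; omega) w38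
  have y49 : x49 ≤ 1 := edge_le x49 x34 x40 x79 x96
    (by clear w01 w12 w23 w34 w40 w05 w16 w27 w38 w49 w57 w68 w79 w85 w96 c0 c1 c2 c3 c4 c5 d0 d1 d2 d3 d5 d6 d7 d8 d9; omega)
    (by clear w01 w12 w23 w34 w40 w05 w16 w27 w38 w49 w57 w68 w79 w85 w96 c0 c1 c2 c3 c4 c5 d0 d1 d2 d3 d4 d5 d6 d7 d8; omega) w49
  have y57 : x57 ≤ 1 := edge_le x57 x05 x85 x27 x79
    (by clear w01 w12 w23 w34 w40 w05 w16 w27 w38 w49 w57 w68 w79 w85 w96 c0 c1 c2 c3 c4 c5 d0 d1 d2 d3 d4 d6 d7 d8 d9; omega)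
    (by clear w01 w12 w23 w34 w40 w05 w16 w27 w38 w49 w57 w68 w79 w85 w96 c0 c1 c2 c3 c4 c5 d0 d1 d2 d3 d4 d5 d6 d8 d9; omega) w57
  have y68 : x68 ≤ 1 := edge_le x68 x16 x96 x38 x85
    (by clear w01 w12 w23 w34 w40 w05 w16 w27 w38 w49 w57 w68 w79 w85 w96 c0 c1 c2 c3 c4 c5 d0 d1 d2 d3 d4 d5 d7 d8 d9; omega)
    (by clear w01 w12 w23 w34 w40 w05 w16 w27 w38 w49 w57 w68 w79 w85 w96 c0 c1 c2 c3 c4 c5 d0 d1 d2 d3 d4 d5 d6 d7 d9; omega) w68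
  have y79 : x79 ≤ 1 := edge_le x79 x27 x57 x49 x96
    (by clear w01 w12 w23 w34 w40 w05 w16 w27 w38 w49 w57 w68 w79 w85 w96 c0 c1 c2 c3 c4 c5 d0 d1 d2 d3 d4 d5 d6 d8 d9; omega)
    (by clear w01 w12 w23 w34 w40 w05 w16 w27 w38 w49 w57 w68 w79 w85 w96 c0 c1 c2 c3 c4 c5 d0 d1 d2 d3 d4 d5 d6 d7 d8; omega) w79
  have y85 : x85 ≤ 1 := edge_le x85 x38 x68 x05 x57
    (by clear w01 w12 w23 w34 w40 w05 w16 w27 w38 w49 w57 w68 w79 w85 w96 c0 c1 c2 c3 c4 c5 d0 d1 d2 d3 d4 d5 d6 d7 d9; omega)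
    (by clear w01 w12 w23 w34 w40 w05 w16 w27 w38 w49 w57 w68 w79 w85 w96 c0 c1 c2 c3 c4 c5 d0 d1 d2 d3 d4 d6 d7 d8 d9; omega) w85
  have y96 : x96 ≤ 1 := edge_le x96 x49 x79 x16 x68
    (by clear w01 w12 w23 w34 w40 w05 w16 w27 w38 w49 w57 w68 w79 w85 w96 c0 c1 c2 c3 c4 c5 d0 d1 d2 d3 d4 d5 d6 d7 d8; omega)
    (by clear w01 w12 w23 w34 w40 w05 w16 w27 w38 w49 w57 w68 w79 w85 w96 c0 c1 c2 c3 c4 c5 d0 d1 d2 d3 d4 d5 d7 d8 d9; omega) w96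
  clear w01 w12 w23 w34 w40 w05 w16 w27 w38 w49 w57 w68 w79 w85 w96 v0 v1 v2 v3 v4 v5 v6 v7 v8 v9
  have z05 : x05 = 0 ∨ x05 = 1 := by omega
  have z16 : x16 = 0 ∨ x16 = 1 := by omega
  have z27 : x27 = 0 ∨ x27 = 1 := by omega
  have z38 : x38 = 0 ∨ x38 = 1 := by omega
  have z49 : x49 = 0 ∨ x49 = 1 := by omega
  rcases z05 with z05 | z05 <;> rcases z16 with z16 | z16 <;> rcases z27 with z27 | z27 <;>
    rcases z38 with z38 | z38 <;> rcases z49 with z49 | z49 <;> omega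

end Pool.Agent.R547.EQ
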