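import Pool.Agent.R547.EQ.Special

set_option autoImplicit false
set_option linter.unusedSectionVars false

/-! # Labels and quadratic forms -/

namespace Pool.Agent.R547.EQ

open Finset Matrix
open scoped Classical

variable {V E : Type} [Fintype V] [Fintype E] (ends : E → V × V) {r : ℕ}

theorem abs_dot_le (t x : Fin r → ℤ) (N : ℤ) (hx : ∀ i, |x i| ≤ N) :
    |t ⬝ᵥ x| ≤ (∑ i, |t i|) * N := by
  rw [dotProduct, Finset.sum_mul]
  refine (Finset.abs_sum_le_sum_abs _ _).trans (Finset.sum_le_sum fun i _ => ?_)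
  rw [abs_mul]
  exact mul_le_mul_of_nonneg_left (hx i) (abs_nonneg _)

theorem exists_core (v₀ : V)
    (hcut : ∀ U : Finset V, U.Nonempty → U ≠ univ → r ≤ (crossing ends U).card)
    (hV : ∀ u : V, ∃ w, w ≠ u) :
    ∃ (t : E → Fin r → ℤ) (Q : V → (Fin r → ℤ) → ℤ) (C : ℕ),
      (∀ (f : E) (x : Fin r → ℤ) (N : ℤ), (∀ i, |x i| ≤ N) → 0 ≤ N → |t f ⬝ᵥ x| ≤ C * N) ∧
      (∀ (v : V) (x : Fin r → ℤ) (N : ℤ), (∀ i, |x i| ≤ N) → 0 ≤ N → |Q v x| ≤ C * N ^ 2) ∧
      (∀ x, ∑ v, Q v x = 0) ∧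
      ∀ X : V → Fin r → ℤ, (∀ f, t f ⬝ᵥ X (ends f).1 = t f ⬝ᵥ X (ends f).2) →
        0 ≤ ∑ v, Q v (X v) ∧ (∑ v, Q v (X v) = 0 → ∀ u v, X u = X v) := by
  obtain ⟨w, η, hp⟩ := exists_param ends v₀ hcut hV
  set S := Smat ends w with hS
  set T := Tmat ends v₀ w η with hT
  have hc : ∀ f g, ∃ u, (∃ u, Inc ends f u ∧ Inc ends g u) → Inc ends f u ∧ Inc ends g u := by
    intro f g
    by_cases h : ∃ u, Inc ends f u ∧ Inc ends g u
    · obtain ⟨u, hu⟩ := h
      exact ⟨u, fun _ => hu⟩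
    · exact ⟨v₀, fun h' => absurd h' h⟩
  choose c hc using hc
  set Q : V → (Fin r → ℤ) → ℤ := fun v x =>
    ∑ f, ∑ g, (if c f g = v then S f g * ((T f ⬝ᵥ x) * (T g ⬝ᵥ x)) else 0) -
      (if v = v₀ then ∑ f, ∑ g, S f g * ((T f ⬝ᵥ x) * (T g ⬝ᵥ x)) else 0) with hQ
  -- the sum of the forms
  have hsum : ∀ X : V → Fin r → ℤ, ∑ v, Q v (X v) =
      ∑ f, ∑ g, S f g * ((T f ⬝ᵥ X (c f g)) * (T g ⬝ᵥ X (c f g))) -
        ∑ f, ∑ g, S f g * ((T f ⬝ᵥ X v₀) * (T g ⬝ᵥ X v₀)) := by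
    intro X
    rw [hQ]
    simp only
    rw [Finset.sum_sub_distrib]
    congr 1
    · rw [Finset.sum_comm]
      refine Finset.sum_congr rfl fun f _ => ?_
      rw [Finset.sum_comm]
      refine Finset.sum_congr rfl fun g _ => ?_
      rw [Finset.sum_ite_eq]
      simp
    · rw [Finset.sum_ite_eq']
      simp
  set C₁ : ℤ := ∑ f, ∑ i, |T f i| with hC₁
  have hC₁0 : 0 ≤ C₁ := Finset.sum_nonneg fun f _ => Finset.sum_nonneg fun i _ => abs_nonneg _
  have hlin : ∀ (f : E) (x : Fin r → ℤ) (N : ℤ), (∀ i, |x i| ≤ N) → 0 ≤ N →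
      |T f ⬝ᵥ x| ≤ C₁ * N := by
    intro f x N hx hN
    refine (abs_dot_le _ _ N hx).trans (mul_le_mul_of_nonneg_right ?_ hN)
    exact Finset.single_le_sum (f := fun f => ∑ i, |T f i|)
      (fun f _ => Finset.sum_nonneg fun i _ => abs_nonneg _) (mem_univ f)
  set C₂ : ℤ := ∑ f, ∑ g, |S f g| with hC₂
  have hC₂0 : 0 ≤ C₂ := Finset.sum_nonneg fun f _ => Finset.sum_nonneg fun i _ => abs_nonneg _
  have hquad : ∀ (x : Fin r → ℤ) (N : ℤ), (∀ i, |x i| ≤ N) → 0 ≤ N → ∀ p : E → E → Prop,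
      |∑ f, ∑ g, (if p f g then S f g * ((T f ⬝ᵥ x) * (T g ⬝ᵥ x)) else 0)| ≤
        C₂ * (C₁ * N) ^ 2 := by
    intro x N hx hN p
    rw [hC₂, Finset.sum_mul]
    refine (Finset.abs_sum_le_sum_abs _ _).trans (Finset.sum_le_sum fun f _ => ?_)
    rw [Finset.sum_mul]
    refine (Finset.abs_sum_le_sum_abs _ _).trans (Finset.sum_le_sum fun g _ => ?_)
    have h1 := hlin f x N hx hN
    have h2 := hlin g x N hx hN
    have h3 : |S f g * ((T f ⬝ᵥ x) * (T g ⬝ᵥ x))| ≤ |S f g| * (C₁ * N) ^ 2 := by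
      rw [abs_mul, abs_mul, sq]
      exact mul_le_mul_of_nonneg_left
        (mul_le_mul h1 h2 (abs_nonneg _) (by positivity)) (abs_nonneg _)
    split_ifs
    · exact h3
    · rw [abs_zero]
      positivity
  refine ⟨T, Q, (C₁ + 2 * C₂ * C₁ ^ 2).toNat, ?_, ?_, ?_, ?_⟩
  · intro f x N hx hN
    rw [Int.toNat_of_nonneg (by positivity)]
    refine (hlin f x N hx hN).trans (mul_le_mul_of_nonneg_right ?_ hN)
    have : 0 ≤ 2 * C₂ * C₁ ^ 2 := by positivity
    linarith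
  · intro v x N hx hN
    rw [Int.toNat_of_nonneg (by positivity), hQ]
    simp only
    refine (abs_sub _ _).trans ?_
    have h1 := hquad x N hx hN (fun f g => c f g = v)
    have h2 := hquad x N hx hN (fun _ _ => True)
    simp only [if_true] at h2
    have h3 : |if v = v₀ then ∑ f, ∑ g, S f g * ((T f ⬝ᵥ x) * (T g ⬝ᵥ x)) else 0| ≤
        C₂ * (C₁ * N) ^ 2 := by
      split_ifs
      · exact h2
      · rw [abs_zero]; positivity
    have h4 : 0 ≤ C₁ * N ^ 2 := by positivity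
    nlinarith
  · intro x
    rw [hsum (fun _ => x), sub_self]
  · intro X hX
    set b : E → ℤ := fun f => T f ⬝ᵥ X (ends f).1 with hb
    have hbv : ∀ f u, Inc ends f u → T f ⬝ᵥ X u = b f := by
      intro f u hu
      rcases hu with rfl | rfl
      · rfl
      · exact (hX f).symm
    set y : E → ℤ := T *ᵥ X v₀ with hy
    have hyf : ∀ f, T f ⬝ᵥ X v₀ = y f := fun f => rfl
    have hform : ∀ z z' : E → ℤ, z ⬝ᵥ (S *ᵥ z') = ∑ f, ∑ g, S f g * (z f * z' g) := by
      intro z z'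
      rw [dotProduct]
      refine Finset.sum_congr rfl fun f _ => ?_
      rw [Matrix.mulVec, dotProduct, Finset.mul_sum]
      refine Finset.sum_congr rfl fun g _ => ?_
      ring
    have h1 : ∑ v, Q v (X v) = b ⬝ᵥ (S *ᵥ b) - y ⬝ᵥ (S *ᵥ y) := by
      rw [hsum, hform, hform]
      congr 1
      refine Finset.sum_congr rfl fun f _ => Finset.sum_congr rfl fun g _ => ?_
      by_cases h : ∃ u, Inc ends f u ∧ Inc ends g u
      · rw [hbv f _ (hc f g h).1, hbv g _ (hc f g h).2]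
      · rw [hS, Smat_eq_zero ends w f g h, zero_mul, zero_mul]
    have hsymm : y ⬝ᵥ (S *ᵥ b) = b ⬝ᵥ (S *ᵥ y) := by
      rw [hform, hform, Finset.sum_comm]
      refine Finset.sum_congr rfl fun f _ => Finset.sum_congr rfl fun g _ => ?_
      rw [hS, Smat_symm ends w g f]
      ring
    have horth : (b - y) ⬝ᵥ (S *ᵥ y) = 0 := by
      rw [dotProduct]
      refine Finset.sum_eq_zero fun f _ => ?_
      by_cases hf : Inc ends f v₀
      · have : (b - y) f = 0 := by
          rw [Pi.sub_apply, ← hyf, hbv f v₀ hf, sub_self]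
        rw [this, zero_mul]
      · have : (S *ᵥ y) f = 0 := by
          rw [hS, hy, hT, Smat_Tmat]
          have : (Hmat ends v₀ η *ᵥ X v₀) f = 0 := by
            rw [Matrix.mulVec, dotProduct]
            refine Finset.sum_eq_zero fun i _ => ?_
            simp [Hmat, hf]
          rw [this, mul_zero]
        rw [this, mul_zero]
    have h2 : ∑ v, Q v (X v) = (b - y) ⬝ᵥ (S *ᵥ (b - y)) := by
      rw [h1, Matrix.mulVec_sub, dotProduct_sub, horth, sub_zero, sub_dotProduct, hsymm]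
      rw [sub_dotProduct] at horth
      linarith
    constructor
    · rw [h2]
      exact Smat_form_nonneg ends w _
    · intro h0
      rw [h2] at h0
      have h3 := Smat_form_zero ends w _ h0
      have h4 : ∀ v, X v = X v₀ := by
        intro v
        rw [← sub_eq_zero]
        refine eq_zero_of_pdet ends v₀ w η v (hp v) _ ?_
        intro f hf
        rw [Matrix.mulVec_sub, Pi.sub_apply]
        have h5 : (T *ᵥ X v) f = b f := hbv f v hf
        rw [← hT, h5]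
        exact congrFun h3 f
      intro u v
      rw [h4 u, h4 v]

end Pool.Agent.R547.EQ
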