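import Mathlib

set_option autoImplicit false

/-! # A finite check: the Petersen graph is 3-edge-connected -/

namespace Pool.Agent.R547.EQ

/-- The check for cuts of size at least three. -/
def chk3 (b0 b1 b2 b3 b4 b5 b6 b7 b8 b9 : Bool) : Bool :=
  (b0 == b1 && b0 == b2 && b0 == b3 && b0 == b4 && b0 == b5 && b0 == b6 && b0 == b7 &&
    b0 == b8 && b0 == b9) ||
  Nat.ble 3 ((b0 ^^ b1).toNat + ((b1 ^^ b2).toNat + ((b2 ^^ b3).toNat + ((b3 ^^ b4).toNat +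
      ((b4 ^^ b0).toNat + ((b0 ^^ b5).toNat + ((b1 ^^ b6).toNat + ((b2 ^^ b7).toNat +
      ((b3 ^^ b8).toNat + ((b4 ^^ b9).toNat + ((b5 ^^ b7).toNat + ((b6 ^^ b8).toNat +
      ((b7 ^^ b9).toNat + ((b8 ^^ b5).toNat + (b9 ^^ b6).toNat))))))))))))))

theorem chk3_true : ∀ b0 b1 b2 b3 b4 b5 b6 b7 b8 b9 : Bool,
    chk3 b0 b1 b2 b3 b4 b5 b6 b7 b8 b9 = true := by
  decide +kernel

theorem cut3_aux (b0 b1 b2 b3 b4 b5 b6 b7 b8 b9 : Bool) :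
    (b0 = b1 ∧ b0 = b2 ∧ b0 = b3 ∧ b0 = b4 ∧ b0 = b5 ∧ b0 = b6 ∧ b0 = b7 ∧ b0 = b8 ∧ b0 = b9) ∨
    3 ≤ (b0 ^^ b1).toNat + ((b1 ^^ b2).toNat + ((b2 ^^ b3).toNat + ((b3 ^^ b4).toNat +
      ((b4 ^^ b0).toNat + ((b0 ^^ b5).toNat + ((b1 ^^ b6).toNat + ((b2 ^^ b7).toNat +
      ((b3 ^^ b8).toNat + ((b4 ^^ b9).toNat + ((b5 ^^ b7).toNat + ((b6 ^^ b8).toNat +
      ((b7 ^^ b9).toNat + ((b8 ^^ b5).toNat + (b9 ^^ b6).toNat))))))))))))) := by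
  have h := chk3_true b0 b1 b2 b3 b4 b5 b6 b7 b8 b9
  rw [chk3, Bool.or_eq_true] at h
  rcases h with h | h
  · left
    simp only [Bool.and_eq_true, beq_iff_eq] at h
    tauto
  · right
    exact Nat.le_of_ble_eq_true h

/-- The check for the multigraph with 11 edges: a cycle through all vertices but `6`, and the edge
from `1` to `6` doubled. -/
def chk2 (b0 b1 b2 b3 b4 b5 b6 b7 b8 b9 : Bool) : Bool :=
  (b0 == b1 && b0 == b2 && b0 == b3 && b0 == b4 && b0 == b5 && b0 == b6 && b0 == b7 &&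
    b0 == b8 && b0 == b9) ||
  Nat.ble 2 ((b0 ^^ b1).toNat + ((b1 ^^ b2).toNat + ((b2 ^^ b3).toNat + ((b3 ^^ b8).toNat +
      ((b8 ^^ b5).toNat + ((b5 ^^ b7).toNat + ((b7 ^^ b9).toNat + ((b4 ^^ b9).toNat +
      ((b4 ^^ b0).toNat + 2 * (b1 ^^ b6).toNat)))))))))

theorem chk2_true : ∀ b0 b1 b2 b3 b4 b5 b6 b7 b8 b9 : Bool,
    chk2 b0 b1 b2 b3 b4 b5 b6 b7 b8 b9 = true := by
  decide +kernel

theorem cut2_aux (b0 b1 b2 b3 b4 b5 b6 b7 b8 b9 : Bool) :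
    (b0 = b1 ∧ b0 = b2 ∧ b0 = b3 ∧ b0 = b4 ∧ b0 = b5 ∧ b0 = b6 ∧ b0 = b7 ∧ b0 = b8 ∧ b0 = b9) ∨
    2 ≤ (b0 ^^ b1).toNat + ((b1 ^^ b2).toNat + ((b2 ^^ b3).toNat + ((b3 ^^ b8).toNat +
      ((b8 ^^ b5).toNat + ((b5 ^^ b7).toNat + ((b7 ^^ b9).toNat + ((b4 ^^ b9).toNat +
      ((b4 ^^ b0).toNat + 2 * (b1 ^^ b6).toNat)))))))) := by
  have h := chk2_true b0 b1 b2 b3 b4 b5 b6 b7 b8 b9
  rw [chk2, Bool.or_eq_true] at h
  rcases h with h | h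
  · left
    simp only [Bool.and_eq_true, beq_iff_eq] at h
    tauto
  · right
    exact Nat.le_of_ble_eq_true h

/-- The multigraph with 11 edges. -/
def mEx (e : Sym2 (Fin 10)) : ℕ :=
  if e = s(1, 6) then 2 else
    if e ∈ ([s(0, 1), s(1, 2), s(2, 3), s(3, 8), s(8, 5), s(5, 7), s(7, 9), s(4, 9), s(4, 0)] :
      List (Sym2 (Fin 10))) then 1 else 0

theorem mEx_le (e : Sym2 (Fin 10)) : mEx e ≤ 2 := by
  unfold mEx
  split_ifs <;> simp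

theorem mEx_0_1 : mEx s(0, 1) = 1 := by decide
theorem mEx_1_2 : mEx s(1, 2) = 1 := by decide
theorem mEx_2_3 : mEx s(2, 3) = 1 := by decide
theorem mEx_3_4 : mEx s(3, 4) = 0 := by decide
theorem mEx_4_0 : mEx s(4, 0) = 1 := by decide
theorem mEx_0_5 : mEx s(0, 5) = 0 := by decide
theorem mEx_1_6 : mEx s(1, 6) = 2 := by decide
theorem mEx_2_7 : mEx s(2, 7) = 0 := by decide
theorem mEx_3_8 : mEx s(3, 8) = 1 := by decide
theorem mEx_4_9 : mEx s(4, 9) = 1 := by decide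
theorem mEx_5_7 : mEx s(5, 7) = 1 := by decide
theorem mEx_6_8 : mEx s(6, 8) = 0 := by decide
theorem mEx_7_9 : mEx s(7, 9) = 1 := by decide
theorem mEx_8_5 : mEx s(8, 5) = 1 := by decide
theorem mEx_9_6 : mEx s(9, 6) = 0 := by decide

end Pool.Agent.R547.EQ
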