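import Mathlib

set_option autoImplicit false

/-!
# Testing equality on a communication graph: definitions

A player sits at every vertex of a finite graph `G` and holds an input. The players exchange bits
along the edges of `G` and have to decide whether all inputs are equal.
-/

namespace Pool.Agent.R547.EQ

open Finset
open scoped Classical

/-- A deterministic protocol for players sitting at the elements of `V` with inputs in `X`. It has
`rounds` rounds. In round `t` the player `u` sends to the player `w` the string of bits
`msg t u w a r`, where `a` is the input of `u`, and `r s v` is the string which `u` has received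
from `v` in the round `s` (for `s < t`; it is replaced by the empty string for `s ≥ t`). After the
last round `u` gives the answer `out u a r`, where now all strings received by `u` are known. -/
structure Protocol (V X : Type) where
  /-- the number of rounds -/
  rounds : ℕ
  /-- the messages -/
  msg : ℕ → V → V → X → (ℕ → V → List Bool) → List Bool
  /-- the answers -/
  out : V → X → (ℕ → V → List Bool) → Bool

variable {V X : Type}

/-- The string which `u` sends to `w` in round `t` when the inputs are `x`. Only neighbours in `G`
can exchange bits. -/
noncomputable def Protocol.sent (P : Protocol V X) (G : SimpleGraph V) (x : V → X) :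
    ℕ → V → V → List Bool
  | t, u, w =>
    if t < P.rounds ∧ G.Adj u w then
      P.msg t u w (x u) (fun s v => if _h : s < t then P.sent G x s v u else [])
    else []
  termination_by t => t

/-- The protocol is self-delimiting: the receiver of a message always knows where the message ends.
Precisely: if `w` has the same input and has received the same strings before round `t` for the
inputs `x` and `y`, then the strings which `u` sends to `w` in round `t` for `x` and `y` are equal,
or none of them is an initial segment of the other one. So no information is carried by the length
of a message or by silence. -/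
def Protocol.SelfDelimiting (P : Protocol V X) (G : SimpleGraph V) : Prop :=
  ∀ (t : ℕ) (u w : V) (x y : V → X), x w = y w →
    (∀ s < t, ∀ v, P.sent G x s v w = P.sent G y s v w) →
      P.sent G x t u w <+: P.sent G y t u w → P.sent G x t u w = P.sent G y t u w

/-- On every input the player `u` answers correctly whether all inputs are equal. -/
def Protocol.CorrectAt (P : Protocol V X) (G : SimpleGraph V) (u : V) : Prop :=
  ∀ x : V → X, P.out u (x u) (fun s v => P.sent G x s v u) = true ↔ ∀ v w, x v = x w

/-- The total number of bits sent on input `x`. -/
noncomputable def Protocol.cost [Fintype V] (P : Protocol V X) (G : SimpleGraph V)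
    (x : V → X) : ℕ :=
  ∑ t ∈ range P.rounds, ∑ u, ∑ w, (P.sent G x t u w).length

/-- `f(n, G)`: the minimum, over the protocols for inputs in `{0,1}^n` in which all players answer
correctly, of the worst-case total number of bits sent. -/
noncomputable def eqCost [Fintype V] (G : SimpleGraph V) (n : ℕ) : ℕ :=
  sInf {c | ∃ P : Protocol V (Fin n → Bool), P.SelfDelimiting G ∧ (∀ u, P.CorrectAt G u) ∧
    ∀ x, P.cost G x ≤ c}

/-- The same minimum when only one player (chosen with the protocol) has to answer correctly. -/
noncomputable def eqCostOne [Fintype V] (G : SimpleGraph V) (n : ℕ) : ℕ :=
  sInf {c | ∃ P : Protocol V (Fin n → Bool), P.SelfDelimiting G ∧ (∃ u, P.CorrectAt G u) ∧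
    ∀ x, P.cost G x ≤ c}

/-- `S` is one side of a cut. -/
def IsCut [Fintype V] (S : Finset V) : Prop := S.Nonempty ∧ S ≠ univ

/-- The pair `e` is separated by `S`. -/
def Crosses (S : Finset V) (e : Sym2 V) : Prop := ∃ u ∈ S, ∃ w, w ∉ S ∧ e = s(u, w)

/-- A fractional packing of cuts: weights in `[0, 1]` for the cuts, such that for every edge the
weights of the cuts containing it have sum at most `1`. (The weight of a cut is the sum of the
weights of its two sides.) -/
def IsPacking [Fintype V] (G : SimpleGraph V) (g : Finset V → ℝ) : Prop :=
  (∀ S, 0 ≤ g S ∧ g S ≤ 1) ∧
    ∀ e ∈ G.edgeSet, ∑ S with IsCut S ∧ Crosses S e, g S ≤ 1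

/-- `fc(G)`: the maximum total weight of a fractional packing of cuts. -/
noncomputable def fc [Fintype V] (G : SimpleGraph V) : ℝ :=
  sSup {w | ∃ g, IsPacking G g ∧ w = ∑ S with IsCut S, g S}

end Pool.Agent.R547.EQ
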