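import Mathlib

set_option autoImplicit false

/-! # The sum of the lengths of the words of a prefix-free code -/

namespace Pool.Agent.R547.EQ

open Finset

theorem kraft_nat {ι : Type} (M : ℕ) : ∀ (A : Finset ι) (C : ι → List Bool),
    (∀ a ∈ A, (C a).length ≤ M) → (∀ a ∈ A, ∀ b ∈ A, C a <+: C b → a = b) →
      ∑ a ∈ A, 2 ^ (M - (C a).length) ≤ 2 ^ M := by
  classical
  induction M with
  | zero =>
    intro A C hl hp
    have hall : ∀ a ∈ A, C a = [] := fun a ha =>
      List.length_eq_zero_iff.1 (Nat.le_zero.1 (hl a ha))
    have hcard : A.card ≤ 1 := by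
      rw [Finset.card_le_one]
      intro a ha b hb
      exact hp a ha b hb (by rw [hall a ha, hall b hb])
    calc ∑ a ∈ A, 2 ^ (0 - (C a).length) = ∑ a ∈ A, 1 := by
          refine Finset.sum_congr rfl fun a ha => by simp
      _ = A.card := by simp
      _ ≤ 2 ^ 0 := by simpa using hcard
  | succ M ih =>
    intro A C hl hp
    by_cases hnil : ∃ a ∈ A, C a = []
    · obtain ⟨a, ha, hCa⟩ := hnil
      have hA : A = {a} := by
        ext b
        rw [Finset.mem_singleton]
        constructor
        · intro hb
          exact (hp a ha b hb (by rw [hCa]; exact List.nil_prefix)).symm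
        · rintro rfl
          exact ha
      rw [hA, Finset.sum_singleton]
      exact Nat.pow_le_pow_right (by norm_num) (Nat.sub_le _ _)
    · push Not at hnil
      have hform : ∀ a ∈ A, ∃ b : Bool, C a = b :: (C a).tail := by
        intro a ha
        cases h : C a with
        | nil => exact absurd h (hnil a ha)
        | cons b l => exact ⟨b, rfl⟩
      have key : ∀ c : Bool, ∑ a ∈ A with (C a).head? = some c, 2 ^ (M + 1 - (C a).length) ≤
          2 ^ M := by
        intro c
        have h1 := ih (A.filter fun a => (C a).head? = some c) (fun a => (C a).tail) ?_ ?_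
        · refine le_trans (le_of_eq ?_) h1
          refine Finset.sum_congr rfl fun a ha => ?_
          rw [Finset.mem_filter] at ha
          obtain ⟨b, hb⟩ := hform a ha.1
          have : (C a).length = (C a).tail.length + 1 := by rw [hb]; simp
          rw [this]
          congr 1
          omega
        · intro a ha
          rw [Finset.mem_filter] at ha
          have := hl a ha.1
          simp only [List.length_tail]
          omega
        · intro a ha b hb hab
          rw [Finset.mem_filter] at ha hb
          obtain ⟨p, hp1⟩ := hform a ha.1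
          obtain ⟨q, hq1⟩ := hform b hb.1
          have e1 : p = c := by
            have := ha.2
            rw [hp1] at this
            simpa using this
          have e2 : q = c := by
            have := hb.2
            rw [hq1] at this
            simpa using this
          refine hp a ha.1 b hb.1 ?_
          rw [hp1, hq1, e1, e2]
          exact (List.cons_prefix_cons).2 ⟨rfl, hab⟩
      have hsplit : ∑ a ∈ A, 2 ^ (M + 1 - (C a).length) =
          ∑ a ∈ A with (C a).head? = some true, 2 ^ (M + 1 - (C a).length) +
          ∑ a ∈ A with (C a).head? = some false, 2 ^ (M + 1 - (C a).length) := by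
        rw [← Finset.sum_filter_add_sum_filter_not A (fun a => (C a).head? = some true)]
        congr 1
        refine Finset.sum_congr ?_ fun _ _ => rfl
        ext a
        simp only [Finset.mem_filter]
        constructor
        · rintro ⟨ha, h⟩
          obtain ⟨b, hb⟩ := hform a ha
          refine ⟨ha, ?_⟩
          have hne : b ≠ true := by
            rintro rfl
            apply h
            rw [hb]
            rfl
          have hb' : b = false := by simpa using hne
          rw [hb, hb']
          rfl
        · rintro ⟨ha, h⟩
          refine ⟨ha, ?_⟩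
          rw [h]
          intro h'
          cases h'
      rw [hsplit, pow_succ]
      have := key true
      have := key false
      omega

/-- The words of a prefix-free code with `2 ^ n` words have average length at least `n`. -/
theorem prefix_free_sum {ι : Type} [Fintype ι] (n : ℕ) (hn : Fintype.card ι = 2 ^ n)
    (C : ι → List Bool) (hp : ∀ a b, C a <+: C b → a = b) :
    n * 2 ^ n ≤ ∑ a, (C a).length := by
  classical
  set M := univ.sup (fun a => (C a).length) with hM
  have hle : ∀ a, (C a).length ≤ M := fun a => Finset.le_sup (f := fun a => (C a).length) (mem_univ a)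
  have h1 := kraft_nat M univ C (fun a _ => hle a) (fun a _ b _ => hp a b)
  have h2 : ∑ a, (1 / 2 ^ (C a).length : ℝ) ≤ 1 := by
    have h3 : ((∑ a, 2 ^ (M - (C a).length) : ℕ) : ℝ) ≤ ((2 ^ M : ℕ) : ℝ) := by exact_mod_cast h1
    push_cast at h3
    have h4 : ∀ a, (2 : ℝ) ^ (M - (C a).length) = 2 ^ M * (1 / 2 ^ (C a).length) := by
      intro a
      rw [pow_sub₀ _ (by norm_num) (hle a)]
      ring
    rw [Finset.sum_congr rfl (fun a _ => h4 a), ← Finset.mul_sum] at h3
    have h5 : (0 : ℝ) < 2 ^ M := by positivity
    nlinarith
  have h3 : ∀ a, (n : ℝ) + 1 - 2 ^ n * (1 / 2 ^ (C a).length) ≤ (C a).length := by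
    intro a
    rcases le_or_gt (C a).length n with h | h
    · obtain ⟨k, hk⟩ := Nat.exists_eq_add_of_le h
      have h4 : (2 : ℝ) ^ n * (1 / 2 ^ (C a).length) = 2 ^ k := by
        have e : (2 : ℝ) ^ n = 2 ^ (C a).length * 2 ^ k := by rw [← pow_add, ← hk]
        rw [e]
        field_simp
      rw [h4]
      have h5 : (k : ℝ) + 1 ≤ 2 ^ k := by
        have : k + 1 ≤ 2 ^ k := Nat.lt_two_pow_self
        exact_mod_cast this
      have h6 : (n : ℝ) = (C a).length + k := by exact_mod_cast hk
      linarith
    · have h4 : (0 : ℝ) ≤ 2 ^ n * (1 / 2 ^ (C a).length) := by positivity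
      have h5 : (n : ℝ) + 1 ≤ (C a).length := by exact_mod_cast h
      linarith
  have h4 : ∑ a : ι, ((n : ℝ) + 1 - 2 ^ n * (1 / 2 ^ (C a).length)) ≤ ∑ a, ((C a).length : ℝ) :=
    Finset.sum_le_sum fun a _ => h3 a
  rw [Finset.sum_sub_distrib, ← Finset.mul_sum, Finset.sum_const, Finset.card_univ, hn,
    nsmul_eq_mul] at h4
  have h5 : (n : ℝ) * 2 ^ n ≤ ∑ a, ((C a).length : ℝ) := by
    have h6 : (0 : ℝ) < 2 ^ n := by positivity
    push_cast at h4
    nlinarith
  exact_mod_cast h5

end Pool.Agent.R547.EQ
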