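import Pool.Agent.R547.EQ.Defs
import Pool.Agent.TH216.MF.FarkasQ
import Pool.Agent.Y199.NN.Farkas

set_option autoImplicit false
set_option linter.unusedSectionVars false

/-! # Linear programming duality for the packing of cuts -/

namespace Pool.Agent.R547.EQ

open Finset
open scoped Classical

theorem farkas_fin {U : Type*} [AddCommGroup U] [Module ℚ U] {κ : Type} [Fintype κ]
    (ℓ : κ → (U →ₗ[ℚ] ℚ)) (f : U →ₗ[ℚ] ℚ) (h : ∀ x, (∀ i, ℓ i x ≤ 0) → f x ≤ 0) :
    ∃ w : κ → ℚ, (∀ i, 0 ≤ w i) ∧ ∀ x, f x = ∑ i, w i * ℓ i x := by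
  let e := Fintype.equivFin κ
  obtain ⟨w, hw, hf⟩ := Pool.Agent.TH216.MF.farkas_lin (Fintype.card κ) (fun i => ℓ (e.symm i)) f
    (by
      intro x hx
      apply h
      intro i
      have := hx (e i)
      rwa [e.symm_apply_apply] at this)
  refine ⟨fun k => w (e k), fun k => hw _, fun x => ?_⟩
  rw [hf x, ← Equiv.sum_comp e]
  simp only [e.symm_apply_apply]

variable {V : Type} [Fintype V] (G : SimpleGraph V)

theorem exists_crossing (hG : G.Connected) (S : Finset V) (hS : IsCut S) :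
    ∃ e ∈ G.edgeSet, Crosses S e := by
  obtain ⟨⟨p, hp⟩, hne⟩ := hS
  obtain ⟨q, hq⟩ : ∃ q, q ∉ S := by
    by_contra hcon
    push Not at hcon
    exact hne (Finset.eq_univ_iff_forall.2 hcon)
  obtain ⟨walk⟩ := hG.preconnected p q
  obtain ⟨d, hd, h1, h2⟩ := walk.exists_boundary_dart (S : Set V) hp hq
  exact ⟨s(d.fst, d.snd), d.adj, d.fst, h1, d.snd, h2, rfl⟩

theorem fc_bddAbove : BddAbove {w | ∃ g, IsPacking G g ∧ w = ∑ S with IsCut S, g S} := by
  refine ⟨∑ S : Finset V with IsCut S, (1 : ℝ), ?_⟩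
  rintro w ⟨g, hg, rfl⟩
  exact Finset.sum_le_sum fun S _ => (hg.1 S).2

theorem le_fc (g : Finset V → ℝ) (hg : IsPacking G g) : ∑ S with IsCut S, g S ≤ fc G :=
  le_csSup (fc_bddAbove G) ⟨g, hg, rfl⟩

theorem exists_dual (hG : G.Connected) (τ : ℚ) (hτ : fc G < τ) :
    ∃ x : G.edgeSet → ℚ, (∀ e, 0 ≤ x e) ∧ ∑ e, x e ≤ τ ∧
      ∀ S, IsCut S → 1 ≤ ∑ e : G.edgeSet with Crosses S e.1, x e := by
  let ℓ₁ : Finset V → (((Finset V → ℚ) × ℚ) →ₗ[ℚ] ℚ) := fun S =>
    { toFun := fun p => - p.1 S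
      map_add' := fun p q => by simp [add_comm]
      map_smul' := fun a p => by simp }
  let ℓ₂ : G.edgeSet → (((Finset V → ℚ) × ℚ) →ₗ[ℚ] ℚ) := fun e =>
    { toFun := fun p => ∑ S with IsCut S ∧ Crosses S e.1, p.1 S - p.2
      map_add' := fun p q => by
        simp only [Prod.fst_add, Prod.snd_add, Pi.add_apply, Finset.sum_add_distrib]
        ring
      map_smul' := fun a p => by
        simp only [Prod.smul_fst, Prod.smul_snd, Pi.smul_apply, smul_eq_mul, RingHom.id_apply,
          ← Finset.mul_sum]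
        ring }
  let ℓ₃ : ((Finset V → ℚ) × ℚ) →ₗ[ℚ] ℚ :=
    { toFun := fun p => - p.2
      map_add' := fun p q => by simp [add_comm]
      map_smul' := fun a p => by simp }
  let f : ((Finset V → ℚ) × ℚ) →ₗ[ℚ] ℚ :=
    { toFun := fun p => ∑ S with IsCut S, p.1 S - τ * p.2
      map_add' := fun p q => by
        simp only [Prod.fst_add, Prod.snd_add, Pi.add_apply, Finset.sum_add_distrib]
        ring
      map_smul' := fun a p => by
        simp only [Prod.smul_fst, Prod.smul_snd, Pi.smul_apply, smul_eq_mul, RingHom.id_apply,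
          ← Finset.mul_sum]
        ring }
  let ℓ : (Finset V ⊕ (G.edgeSet ⊕ Unit)) → (((Finset V → ℚ) × ℚ) →ₗ[ℚ] ℚ) := Sum.elim ℓ₁ (Sum.elim ℓ₂ (fun _ => ℓ₃))
  have hf : ∀ p : (Finset V → ℚ) × ℚ, (∀ i, ℓ i p ≤ 0) → f p ≤ 0 := by
    rintro ⟨g, s⟩ hp
    have h1 : ∀ S, 0 ≤ g S := fun S => by
      have : - g S ≤ 0 := hp (Sum.inl S)
      linarith
    have h2 : ∀ e : G.edgeSet, ∑ S with IsCut S ∧ Crosses S e.1, g S ≤ s := fun e => by
      have : ∑ S with IsCut S ∧ Crosses S e.1, g S - s ≤ 0 := hp (Sum.inr (Sum.inl e))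
      linarith
    have h3 : 0 ≤ s := by
      have : - s ≤ 0 := hp (Sum.inr (Sum.inr ()))
      linarith
    have h4 : ∀ S, IsCut S → g S ≤ s := by
      intro S hS
      obtain ⟨e, he, hc⟩ := exists_crossing G hG S hS
      refine le_trans ?_ (h2 ⟨e, he⟩)
      exact Finset.single_le_sum (f := g) (fun S _ => h1 S)
        (Finset.mem_filter.2 ⟨mem_univ _, hS, hc⟩)
    change ∑ S with IsCut S, g S - τ * s ≤ 0
    rcases h3.eq_or_lt with h0 | h0
    · have : ∑ S with IsCut S, g S ≤ 0 := by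
        refine Finset.sum_nonpos fun S hS => ?_
        rw [h0]
        exact h4 S (Finset.mem_filter.1 hS).2
      rw [← h0]
      linarith
    · have h0' : (0 : ℝ) < s := by exact_mod_cast h0
      have hpack : IsPacking G (fun S => if IsCut S then (g S : ℝ) / s else 0) := by
        constructor
        · intro S
          by_cases hS : IsCut S
          · simp only [if_pos hS]
            have e1 : (0 : ℝ) ≤ g S := by exact_mod_cast h1 S
            have e2 : (g S : ℝ) ≤ s := by exact_mod_cast h4 S hS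
            exact ⟨by positivity, by rw [div_le_one h0']; exact e2⟩
          · simp [hS]
        · intro e he
          have e1 : ∑ S with IsCut S ∧ Crosses S e, (if IsCut S then (g S : ℝ) / s else 0) =
              (∑ S with IsCut S ∧ Crosses S e, (g S : ℝ)) / s := by
            rw [Finset.sum_div]
            refine Finset.sum_congr rfl fun S hS => ?_
            rw [if_pos (Finset.mem_filter.1 hS).2.1]
          rw [e1, div_le_one h0']
          exact_mod_cast h2 ⟨e, he⟩
      have h5 := le_fc G _ hpack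
      have e2 : ∑ S with IsCut S, (if IsCut S then (g S : ℝ) / s else 0) =
          (∑ S with IsCut S, (g S : ℝ)) / s := by
        rw [Finset.sum_div]
        refine Finset.sum_congr rfl fun S hS => ?_
        rw [if_pos (Finset.mem_filter.1 hS).2]
      rw [e2] at h5
      have h6 := h5.trans hτ.le
      rw [div_le_iff₀ h0'] at h6
      have h7 : ∑ S with IsCut S, g S ≤ τ * s := by exact_mod_cast h6
      linarith
  obtain ⟨w, hw, hid⟩ := farkas_fin ℓ f hf
  have hid' : ∀ (g : Finset V → ℚ) (s : ℚ), ∑ S with IsCut S, g S - τ * s =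
      ∑ S, w (Sum.inl S) * (- g S) +
      (∑ e : G.edgeSet, w (Sum.inr (Sum.inl e)) * (∑ S with IsCut S ∧ Crosses S e.1, g S - s) +
        w (Sum.inr (Sum.inr ())) * (- s)) := by
    intro g s
    have h1 := hid (g, s)
    rw [Fintype.sum_sum_type, Fintype.sum_sum_type] at h1
    have h2 : ∀ F : Unit → ℚ, ∑ a, F a = F () := fun F => by simp
    rw [h2] at h1
    exact h1
  refine ⟨fun e => w (Sum.inr (Sum.inl e)), fun e => hw _, ?_, ?_⟩
  · have h1 := hid' (fun _ => 0) 1
    simp only [Finset.sum_const_zero, mul_one, zero_sub, neg_zero, mul_zero, mul_neg,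
      Finset.sum_neg_distrib] at h1
    have := hw (Sum.inr (Sum.inr ()))
    linarith
  · intro S hS
    have h1 := hid' (fun T => if T = S then 1 else 0) 0
    have e1 : ∑ T with IsCut T, (if T = S then (1 : ℚ) else 0) = 1 := by
      rw [Finset.sum_ite_eq', if_pos (Finset.mem_filter.2 ⟨mem_univ _, hS⟩)]
    have e2 : ∑ T, w (Sum.inl T) * (- (if T = S then (1 : ℚ) else 0)) = - w (Sum.inl S) := by
      rw [Finset.sum_eq_single S]
      · simp
      · intro T _ hT
        simp [hT]
      · intro h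
        exact absurd (mem_univ _) h
    have e3 : ∀ e : G.edgeSet, ∑ T with IsCut T ∧ Crosses T e.1, (if T = S then (1 : ℚ) else 0) =
        if Crosses S e.1 then 1 else 0 := by
      intro e
      rw [Finset.sum_ite_eq']
      simp [hS]
    simp only [e1, e2, e3, mul_zero, sub_zero, neg_zero, add_zero] at h1
    have h2 := hw (Sum.inl S)
    have e4 : ∑ e : G.edgeSet with Crosses S e.1, w (Sum.inr (Sum.inl e)) =
        ∑ e : G.edgeSet, w (Sum.inr (Sum.inl e)) * (if Crosses S e.1 then 1 else 0) := by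
      rw [Finset.sum_filter]
      refine Finset.sum_congr rfl fun e _ => ?_
      split_ifs <;> simp
    rw [e4]
    linarith

/-- Integral multiplicities of the edges. -/
theorem exists_mult (hG : G.Connected) (c : ℝ) (hc : fc G < c) :
    ∃ (r : ℕ) (μ : G.edgeSet → ℕ), 0 < r ∧ (∑ e, μ e : ℕ) < c * r ∧
      ∀ S, IsCut S → r ≤ ∑ e : G.edgeSet with Crosses S e.1, μ e := by
  obtain ⟨τ, h1, h2⟩ := exists_rat_btwn hc
  obtain ⟨x, hx0, hx1, hx2⟩ := exists_dual G hG τ h1
  obtain ⟨d, m, hd, hm⟩ := Pool.Agent.Y199.NN.clear x hx0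
  refine ⟨d, m, hd, ?_, ?_⟩
  · have h3 : ((∑ e, m e : ℕ) : ℚ) ≤ τ * d := by
      push_cast
      rw [Finset.sum_congr rfl fun e _ => hm e, ← Finset.mul_sum, mul_comm]
      exact mul_le_mul_of_nonneg_right hx1 (by positivity)
    have h4 : ((∑ e, m e : ℕ) : ℝ) ≤ τ * d := by exact_mod_cast h3
    have h5 : (0 : ℝ) < d := by exact_mod_cast hd
    nlinarith
  · intro S hS
    have h3 : (d : ℚ) ≤ ((∑ e : G.edgeSet with Crosses S e.1, m e : ℕ) : ℚ) := by
      push_cast
      rw [Finset.sum_congr rfl fun e _ => hm e, ← Finset.mul_sum]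
      have := hx2 S hS
      have h5 : (0 : ℚ) < d := by exact_mod_cast hd
      nlinarith
    exact_mod_cast h3

end Pool.Agent.R547.EQ
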