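import Pool.Agent.R547.EQ.Core

set_option autoImplicit false
set_option linter.unusedSectionVars false

/-! # Labelings of the edges -/

namespace Pool.Agent.R547.EQ

open Finset Matrix
open scoped Classical

theorem num1 (C D : ℕ) (hD : 1 ≤ D) :
    2 * (D * C * (2 ^ D) ^ 2) + 1 ≤ 2 ^ ((2 * C + 4) * D) := by
  have h1 : D ≤ 2 ^ D := Nat.lt_two_pow_self.le
  have h2 : 2 * C + 1 ≤ 2 ^ (2 * C + 1) := Nat.lt_two_pow_self.le
  have h3 : 1 ≤ D * (2 ^ D) ^ 2 := Nat.one_le_iff_ne_zero.2 (by positivity)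
  calc 2 * (D * C * (2 ^ D) ^ 2) + 1 ≤ 2 * (D * C * (2 ^ D) ^ 2) + D * (2 ^ D) ^ 2 := by omega
    _ = (2 * C + 1) * (D * (2 ^ D) ^ 2) := by ring
    _ ≤ 2 ^ (2 * C + 1) * (2 ^ D * (2 ^ D) ^ 2) :=
        Nat.mul_le_mul h2 (Nat.mul_le_mul h1 (le_refl _))
    _ = 2 ^ (2 * C + 1 + 3 * D) := by ring
    _ ≤ 2 ^ ((2 * C + 4) * D) := by
        refine Nat.pow_le_pow_right (by norm_num) ?_
        nlinarith

theorem num2 (C D K : ℕ) (hK : 2 * C + 1 ≤ K) : 2 * (C * 2 ^ D) + 1 ≤ 2 ^ (D + K) := by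
  have h2 : 2 * C + 1 ≤ 2 ^ (2 * C + 1) := Nat.lt_two_pow_self.le
  have h3 : 1 ≤ 2 ^ D := Nat.one_le_two_pow
  calc 2 * (C * 2 ^ D) + 1 ≤ 2 * (C * 2 ^ D) + 2 ^ D := by omega
    _ = (2 * C + 1) * 2 ^ D := by ring
    _ ≤ 2 ^ (2 * C + 1) * 2 ^ D := Nat.mul_le_mul h2 (le_refl _)
    _ = 2 ^ (D + (2 * C + 1)) := by ring
    _ ≤ 2 ^ (D + K) := Nat.pow_le_pow_right (by norm_num) (by omega)

theorem num3 (r n K : ℕ) (hr : 0 < r) :
    n + K * (Nat.sqrt (n / r) + 1 + K) ≤ r * (Nat.sqrt (n / r) + 1 + K) ^ 2 := by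
  have h1 : n / r < (Nat.sqrt (n / r) + 1) * (Nat.sqrt (n / r) + 1) := Nat.lt_succ_sqrt _
  rw [Nat.div_lt_iff_lt_mul hr] at h1
  set s := Nat.sqrt (n / r) + 1
  have h2 : K * s ≤ r * (K * s) := Nat.le_mul_of_pos_left _ hr
  have h3 : K * K ≤ r * (K * K) := Nat.le_mul_of_pos_left _ hr
  have h4 : r * (s + K) ^ 2 = s * s * r + 2 * (r * (K * s)) + r * (K * K) := by ring
  have h5 : K * (s + K) = K * s + K * K := by ring
  rw [h4, h5]
  nlinarith

variable {V E : Type} [Fintype V] [Fintype E] (ends : E → V × V) {r : ℕ}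

theorem exists_labels (hr : 0 < r) (v₀ : V)
    (hcut : ∀ U : Finset V, U.Nonempty → U ≠ univ → r ≤ (crossing ends U).card)
    (hV : ∀ u : V, ∃ w, w ≠ u) :
    ∃ K : ℕ, ∀ n : ℕ, ∃ ℓ : E → (Fin n → Bool) →
        (Fin ((Nat.sqrt (n / r) + 1 + K) * (Nat.sqrt (n / r) + 1 + K + K)) → Bool),
      ∀ X : V → (Fin n → Bool), (∀ f, ℓ f (X (ends f).1) = ℓ f (X (ends f).2)) →
        ∀ u v, X u = X v := by
  obtain ⟨t, Q, C, hC1, hC2, hQ0, hQ⟩ := exists_core ends v₀ hcut hV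
  refine ⟨(2 * C + 4) * (Fintype.card V + 1), fun n => ?_⟩
  set K := (2 * C + 4) * (Fintype.card V + 1) with hK
  set D := Nat.sqrt (n / r) + 1 + K with hD
  have hD1 : 1 ≤ D := by omega
  have hK1 : (2 * C + 4) * Fintype.card V ≤ K := by rw [hK]; nlinarith
  have hK2 : 2 * C + 1 ≤ K := by rw [hK]; nlinarith
  let Box := Fin D → Fin r → Fin (2 ^ D)
  let val : Box → Fin D → Fin r → ℤ := fun x d i => ((x d i : ℕ) : ℤ)
  have hval : ∀ (x : Box) d i, |val x d i| ≤ ((2 ^ D : ℕ) : ℤ) := by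
    intro x d i
    have : val x d i = ((x d i : ℕ) : ℤ) := rfl
    rw [this, abs_of_nonneg (by positivity)]
    exact_mod_cast (x d i).2.le
  have hvalinj : ∀ x x' : Box, val x = val x' → x = x' := by
    intro x x' h
    funext d i
    have h1 : ((x d i : ℕ) : ℤ) = ((x' d i : ℕ) : ℤ) := congrFun (congrFun h d) i
    apply Fin.ext
    exact_mod_cast h1
  let Φ : Box → V → ℤ := fun x v => ∑ d, Q v (val x d)
  set B : ℕ := D * C * (2 ^ D) ^ 2 with hB
  have hΦ : ∀ x v, |Φ x v| ≤ (B : ℤ) := by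
    intro x v
    refine (Finset.abs_sum_le_sum_abs _ _).trans ?_
    refine (Finset.sum_le_sum fun d _ => hC2 v (val x d) _ (hval x d) (by positivity)).trans ?_
    rw [Finset.sum_const, Finset.card_univ, Fintype.card_fin, hB]
    push_cast
    rw [nsmul_eq_mul, mul_assoc]
  obtain ⟨q, -, hq⟩ := Finset.exists_le_card_fiber_of_mul_le_card_of_maps_to
    (s := (univ : Finset Box)) (t := Fintype.piFinset (fun _ : V => Finset.Icc (-(B : ℤ)) B))
    (f := Φ) (n := 2 ^ n) (by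
      intro x _
      rw [Fintype.mem_piFinset]
      intro v
      rw [Finset.mem_Icc]
      exact abs_le.1 (hΦ x v)) (by
      refine ⟨fun _ => 0, ?_⟩
      rw [Fintype.mem_piFinset]
      intro v
      rw [Finset.mem_Icc]
      constructor <;> simp) (by
      rw [Fintype.card_piFinset]
      simp only [Int.card_Icc, Finset.prod_const, Finset.card_univ, Box, Fintype.card_pi,
        Fintype.card_fin]
      have e1 : ((B : ℤ) + 1 - -(B : ℤ)).toNat = 2 * B + 1 := by omega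
      rw [e1, ← pow_mul, ← pow_mul]
      have e2 : (2 * B + 1) ^ Fintype.card V ≤ (2 ^ ((2 * C + 4) * D)) ^ Fintype.card V :=
        Nat.pow_le_pow_left (num1 C D hD1) _
      calc (2 * B + 1) ^ Fintype.card V * 2 ^ n
          ≤ (2 ^ ((2 * C + 4) * D)) ^ Fintype.card V * 2 ^ n := Nat.mul_le_mul_right _ e2
        _ = 2 ^ ((2 * C + 4) * Fintype.card V * D + n) := by
            rw [← pow_mul, ← pow_add]; congr 1; ring
        _ ≤ 2 ^ (D * (r * D)) := by
            refine Nat.pow_le_pow_right (by norm_num) ?_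
            have h1 := num3 r n K hr
            rw [← hD] at h1
            have h2 : (2 * C + 4) * Fintype.card V * D ≤ K * D := Nat.mul_le_mul_right _ hK1
            have h3 : r * D ^ 2 = D * (r * D) := by ring
            omega)
  -- the embedding of the inputs
  obtain ⟨emb⟩ : Nonempty ((Fin n → Bool) ↪ {x : Box // Φ x = q}) := by
    refine Function.Embedding.nonempty_of_card_le ?_
    rw [Fintype.card_subtype]
    simpa using hq
  -- the encoding of the labels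
  let Lab := Fin D → {z : ℤ // z ∈ Finset.Icc (-((C * 2 ^ D : ℕ) : ℤ)) ((C * 2 ^ D : ℕ) : ℤ)}
  obtain ⟨enc⟩ : Nonempty (Lab ↪ (Fin (D * (D + K)) → Bool)) := by
    refine Function.Embedding.nonempty_of_card_le ?_
    simp only [Lab, Fintype.card_pi, Finset.prod_const, Finset.card_univ, Fintype.card_fin,
      Fintype.card_bool, Fintype.card_coe, Int.card_Icc]
    have e1 : (((C * 2 ^ D : ℕ) : ℤ) + 1 - -((C * 2 ^ D : ℕ) : ℤ)).toNat =
        2 * (C * 2 ^ D) + 1 := by omega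
    rw [e1]
    calc (2 * (C * 2 ^ D) + 1) ^ D ≤ (2 ^ (D + K)) ^ D := Nat.pow_le_pow_left (num2 C D K hK2) _
      _ = 2 ^ (D * (D + K)) := by rw [← pow_mul, mul_comm]
  let lab : E → Box → Lab := fun f x d => ⟨t f ⬝ᵥ val x d, by
    rw [Finset.mem_Icc, ← abs_le]
    have := hC1 f (val x d) _ (hval x d) (by positivity)
    push_cast at this ⊢
    exact this⟩
  refine ⟨fun f a => enc (lab f (emb a).1), ?_⟩
  intro X hX
  have hlab : ∀ f d, t f ⬝ᵥ val (emb (X (ends f).1)).1 d = t f ⬝ᵥ val (emb (X (ends f).2)).1 d := by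
    intro f d
    have h1 := enc.injective (hX f)
    have h2 := congrFun h1 d
    exact congrArg Subtype.val h2
  have hcore : ∀ d, 0 ≤ ∑ v, Q v (val (emb (X v)).1 d) ∧
      (∑ v, Q v (val (emb (X v)).1 d) = 0 → ∀ u v, val (emb (X u)).1 d = val (emb (X v)).1 d) :=
    fun d => hQ (fun v => val (emb (X v)).1 d) (fun f => hlab f d)
  have hq0 : ∑ v, q v = 0 := by
    have h1 : Φ (emb (fun _ => false)).1 = q := (emb (fun _ => false)).2
    rw [← h1, Finset.sum_comm]
    exact Finset.sum_eq_zero fun d _ => hQ0 _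
  have htot : ∑ d, ∑ v, Q v (val (emb (X v)).1 d) = 0 := by
    rw [Finset.sum_comm, ← hq0]
    refine Finset.sum_congr rfl fun v _ => ?_
    exact congrFun (emb (X v)).2 v
  have hzero := (Finset.sum_eq_zero_iff_of_nonneg (fun d _ => (hcore d).1)).1 htot
  intro u v
  have h1 : val (emb (X u)).1 = val (emb (X v)).1 := by
    funext d
    exact (hcore d).2 (hzero d (mem_univ d)) u v
  exact emb.injective (Subtype.ext (hvalinj _ _ h1))

end Pool.Agent.R547.EQ
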