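import Pool.Agent.R547.EQ.Defs
import Pool.Agent.R547.EQ.Kraft

set_option autoImplicit false

/-! # The lower bound: `n * fc G ≤ eqCost G n` -/

namespace Pool.Agent.R547.EQ

open Finset
open scoped Classical

variable {V X : Type}

theorem Protocol.sent_eq (P : Protocol V X) (G : SimpleGraph V) (x : V → X) (t : ℕ) (u w : V) :
    P.sent G x t u w = if t < P.rounds ∧ G.Adj u w then
      P.msg t u w (x u) (fun s v => if s < t then P.sent G x s v u else []) else [] := by
  rw [Protocol.sent]
  simp only [dite_eq_ite]

/-- The hybrid input. -/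
noncomputable def hyb (S : Finset V) (a b : X) : V → X := fun v => if v ∈ S then a else b

/-- The hybrid argument. -/
theorem hybrid (P : Protocol V X) (G : SimpleGraph V) (S : Finset V) (a b : X) (T : ℕ)
    (h : ∀ t < T, ∀ u w, Crosses S s(u, w) →
      P.sent G (fun _ => a) t u w = P.sent G (fun _ => b) t u w)
    (t : ℕ) : t ≤ T → ∀ u w,
      (u ∈ S → P.sent G (hyb S a b) t u w = P.sent G (fun _ => a) t u w) ∧
      (u ∉ S → P.sent G (hyb S a b) t u w = P.sent G (fun _ => b) t u w) := by
  induction t using Nat.strong_induction_on with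
  | _ t ih =>
    intro htT u w
    constructor
    · intro hu
      rw [Protocol.sent_eq, Protocol.sent_eq P G (fun _ => a)]
      have : (fun (s : ℕ) (v : V) => if s < t then
            P.sent G (hyb S a b) s v u else []) =
          (fun (s : ℕ) (v : V) => if s < t then P.sent G (fun _ => a) s v u else []) := by
        funext s v
        by_cases hs : s < t
        · rw [if_pos hs, if_pos hs]
          by_cases hv : v ∈ S
          · exact (ih s hs (by omega) v u).1 hv
          · rw [(ih s hs (by omega) v u).2 hv]
            exact (h s (by omega) v u ⟨u, hu, v, hv, Sym2.eq_swap⟩).symm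
        · rw [if_neg hs, if_neg hs]
      have e : hyb S a b u = a := if_pos hu
      rw [this, e]
    · intro hu
      rw [Protocol.sent_eq, Protocol.sent_eq P G (fun _ => b)]
      have : (fun (s : ℕ) (v : V) => if s < t then
            P.sent G (hyb S a b) s v u else []) =
          (fun (s : ℕ) (v : V) => if s < t then P.sent G (fun _ => b) s v u else []) := by
        funext s v
        by_cases hs : s < t
        · rw [if_pos hs, if_pos hs]
          by_cases hv : v ∈ S
          · rw [(ih s hs (by omega) v u).1 hv]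
            exact h s (by omega) v u ⟨v, hv, u, hu, rfl⟩
          · exact (ih s hs (by omega) v u).2 hv
        · rw [if_neg hs, if_neg hs]
      have e : hyb S a b u = b := if_neg hu
      rw [this, e]

/-- What a player receives in the hybrid run. -/
theorem hybrid_view (P : Protocol V X) (G : SimpleGraph V) (S : Finset V) (a b : X) (T : ℕ)
    (h : ∀ t < T, ∀ u w, Crosses S s(u, w) →
      P.sent G (fun _ => a) t u w = P.sent G (fun _ => b) t u w) (w : V) :
    (w ∈ S → ∀ s < T, ∀ v, P.sent G (hyb S a b) s v w = P.sent G (fun _ => a) s v w) ∧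
    (w ∉ S → ∀ s < T, ∀ v, P.sent G (hyb S a b) s v w = P.sent G (fun _ => b) s v w) := by
  constructor
  · intro hw s hs v
    by_cases hv : v ∈ S
    · exact (hybrid P G S a b T h s hs.le v w).1 hv
    · rw [(hybrid P G S a b T h s hs.le v w).2 hv]
      exact (h s hs v w ⟨w, hw, v, hv, Sym2.eq_swap⟩).symm
  · intro hw s hs v
    by_cases hv : v ∈ S
    · rw [(hybrid P G S a b T h s hs.le v w).1 hv]
      exact h s hs v w ⟨v, hv, w, hw, rfl⟩
    · exact (hybrid P G S a b T h s hs.le v w).2 hv

theorem eq_of_crossing (P : Protocol V X) (G : SimpleGraph V) [Fintype V] (u₀ : V)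
    (hP : P.CorrectAt G u₀) (S : Finset V) (hS : IsCut S) (a b : X)
    (h : ∀ t u w, Crosses S s(u, w) →
      P.sent G (fun _ => a) t u w = P.sent G (fun _ => b) t u w) : a = b := by
  obtain ⟨⟨p, hp⟩, hne⟩ := hS
  obtain ⟨q, hq⟩ : ∃ q, q ∉ S := by
    by_contra hcon
    push Not at hcon
    exact hne (Finset.eq_univ_iff_forall.2 hcon)
  have key := (hP (hyb S a b)).1
  have hview := fun s v => hybrid_view P G S a b (s + 1) (fun t _ => h t) v
  suffices hout : P.out u₀ (hyb S a b u₀) (fun s v => P.sent G (hyb S a b) s v u₀) = true by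
    have h2 := key hout p q
    have e1 : hyb S a b p = a := if_pos hp
    have e2 : hyb S a b q = b := if_neg hq
    rw [e1, e2] at h2
    exact h2
  by_cases hu : u₀ ∈ S
  · have e : (fun (s : ℕ) (v : V) => P.sent G (hyb S a b) s v u₀) =
        (fun (s : ℕ) (v : V) => P.sent G (fun _ => a) s v u₀) := by
      funext s v
      exact (hview s u₀).1 hu s (Nat.lt_succ_self s) v
    have e1 : hyb S a b u₀ = a := if_pos hu
    rw [e, e1]
    exact (hP (fun _ => a)).2 (fun _ _ => rfl)
  · have e : (fun (s : ℕ) (v : V) => P.sent G (hyb S a b) s v u₀) =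
        (fun (s : ℕ) (v : V) => P.sent G (fun _ => b) s v u₀) := by
      funext s v
      exact (hview s u₀).2 hu s (Nat.lt_succ_self s) v
    have e1 : hyb S a b u₀ = b := if_neg hu
    rw [e, e1]
    exact (hP (fun _ => b)).2 (fun _ _ => rfl)

/-- If the concatenation of the words `f i` is a prefix of that of the words `g i`, and at the
first place where they differ the words are incomparable, then all words are equal. -/
theorem flatMap_eq {ι : Type} (f g : ι → List Bool) : ∀ (L : List ι),
    (∀ L₁ i L₂, L = L₁ ++ i :: L₂ → (∀ j ∈ L₁, f j = g j) →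
      (f i <+: g i ∨ g i <+: f i) → f i = g i) →
    L.flatMap f <+: L.flatMap g → ∀ i ∈ L, f i = g i := by
  intro L
  induction L with
  | nil => intro _ _ i hi; simp at hi
  | cons a L ih =>
    intro h hpre
    rw [List.flatMap_cons, List.flatMap_cons] at hpre
    have h1 : f a <+: g a ++ L.flatMap g := (List.prefix_append (f a) _).trans hpre
    have h2 : g a <+: g a ++ L.flatMap g := List.prefix_append _ _
    have hcomp : f a <+: g a ∨ g a <+: f a := List.prefix_or_prefix_of_prefix h1 h2
    have hfa : f a = g a := h [] a L rfl (by simp) hcomp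
    rw [hfa, List.prefix_append_right_inj] at hpre
    have hrest := ih (fun L₁ i L₂ hL hj hc => h (a :: L₁) i L₂ (by rw [hL]; rfl) (by
      intro j hj'
      rcases List.mem_cons.1 hj' with rfl | hj'
      · exact hfa
      · exact hj j hj') hc) hpre
    intro i hi
    rcases List.mem_cons.1 hi with rfl | hi
    · exact hfa
    · exact hrest i hi

/-- The sequence of the messages crossing the cut `S`. -/
noncomputable def crossList [Fintype V] (R : ℕ) (S : Finset V) : List (ℕ × V × V) :=
  (List.range R).flatMap fun t =>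
    ((univ : Finset (V × V)).filter fun p => Crosses S s(p.1, p.2)).toList.map fun p => (t, p)

theorem mem_crossList [Fintype V] (R : ℕ) (S : Finset V) (t : ℕ) (u w : V) :
    (t, u, w) ∈ crossList R S ↔ t < R ∧ Crosses S s(u, w) := by
  unfold crossList
  simp only [List.mem_flatMap, List.mem_range, List.mem_map, Finset.mem_toList, Finset.mem_filter,
    Finset.mem_univ, true_and, Prod.mk.injEq]
  constructor
  · rintro ⟨s, hs, ⟨p, q⟩, hp, rfl, h2⟩
    simp only [Prod.mk.injEq] at h2
    obtain ⟨rfl, rfl⟩ := h2
    exact ⟨hs, hp⟩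
  · rintro ⟨ht, hc⟩
    exact ⟨t, ht, (u, w), hc, rfl, rfl⟩

theorem crossList_pairwise [Fintype V] (R : ℕ) (S : Finset V) :
    (crossList R S).Pairwise (fun x y => x.1 ≤ y.1) := by
  unfold crossList
  rw [List.pairwise_flatMap]
  constructor
  · intro t _
    rw [List.pairwise_map]
    exact List.pairwise_of_forall (fun _ _ => le_refl _)
  · refine List.pairwise_lt_range.imp ?_
    intro s t hst x hx y hy
    rw [List.mem_map] at hx hy
    obtain ⟨p, _, rfl⟩ := hx
    obtain ⟨q, _, rfl⟩ := hy
    exact hst.le

theorem sum_crossList [Fintype V] (R : ℕ) (S : Finset V) (F : ℕ → V → V → ℕ) :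
    ((crossList R S).map fun x => F x.1 x.2.1 x.2.2).sum =
      ∑ t ∈ range R, ∑ p : V × V with Crosses S s(p.1, p.2), F t p.1 p.2 := by
  induction R with
  | zero => simp [crossList]
  | succ R ih =>
    rw [Finset.sum_range_succ, ← ih]
    have : crossList (R + 1) S = crossList R S ++
        (((univ : Finset (V × V)).filter fun p => Crosses S s(p.1, p.2)).toList.map
          fun p => (R, p)) := by
      unfold crossList
      rw [List.range_succ, List.flatMap_append]
      simp
    rw [this, List.map_append, List.sum_append, List.map_map]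
    congr 1
    rw [← Finset.sum_map_toList]
    rfl

/-- The transcript on a cut, for constant inputs. -/
noncomputable def transcript (P : Protocol V X) (G : SimpleGraph V) [Fintype V] (S : Finset V)
    (a : X) : List Bool :=
  (crossList P.rounds S).flatMap fun i => P.sent G (fun _ => a) i.1 i.2.1 i.2.2

theorem transcript_length (P : Protocol V X) (G : SimpleGraph V) [Fintype V] (S : Finset V)
    (a : X) : (transcript P G S a).length =
      ∑ t ∈ range P.rounds, ∑ p : V × V with Crosses S s(p.1, p.2),
        (P.sent G (fun _ => a) t p.1 p.2).length := by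
  unfold transcript
  rw [List.length_flatMap]
  exact sum_crossList P.rounds S (fun t u w => (P.sent G (fun _ => a) t u w).length)

theorem transcript_inj (P : Protocol V X) (G : SimpleGraph V) [Fintype V] (u₀ : V)
    (hD : P.SelfDelimiting G) (hP : P.CorrectAt G u₀)
    (S : Finset V) (hS : IsCut S) (a b : X)
    (h : transcript P G S a <+: transcript P G S b) : a = b := by
  refine eq_of_crossing P G u₀ hP S hS a b ?_
  have key : ∀ i ∈ crossList P.rounds S, P.sent G (fun _ => a) i.1 i.2.1 i.2.2 =
      P.sent G (fun _ => b) i.1 i.2.1 i.2.2 := by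
    refine flatMap_eq _ _ _ ?_ h
    rintro L₁ ⟨t, u, w⟩ L₂ hL hj hc
    have hti : (t, u, w) ∈ crossList P.rounds S := by
      rw [hL]; simp
    obtain ⟨htr, hcr⟩ := (mem_crossList _ _ _ _ _).1 hti
    have hearlier : ∀ s < t, ∀ u' w', Crosses S s(u', w') →
        P.sent G (fun _ => a) s u' w' = P.sent G (fun _ => b) s u' w' := by
      intro s hs u' w' hcr
      have hm : (s, u', w') ∈ crossList P.rounds S :=
        (mem_crossList _ _ _ _ _).2 ⟨hs.trans htr, hcr⟩
      rw [hL, List.mem_append] at hm
      rcases hm with hm | hm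
      · exact hj _ hm
      · exfalso
        have hpw := crossList_pairwise P.rounds S
        rw [hL, List.pairwise_append] at hpw
        rcases List.mem_cons.1 hm with hm | hm
        · simp only [Prod.mk.injEq] at hm
          omega
        · have := (List.pairwise_cons.1 hpw.2.1).1 _ hm
          simp only at this
          omega
    simp only at hc ⊢
    have hyb1 := hybrid P G S a b t hearlier t (le_refl _) u w
    have hview := hybrid_view P G S a b t hearlier w
    obtain ⟨p, hp, q, hq, hpq⟩ := hcr
    rw [Sym2.eq_iff] at hpq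
    rcases hpq with ⟨rfl, rfl⟩ | ⟨rfl, rfl⟩
    · -- `u ∈ S`, `w ∉ S`
      rw [← hyb1.1 hp] at hc ⊢
      have e1 : hyb S a b w = b := if_neg hq
      rcases hc with hc | hc
      · exact hD t u w _ _ e1 (hview.2 hq) hc
      · exact (hD t u w _ _ e1.symm (fun s hs v => (hview.2 hq s hs v).symm) hc).symm
    · -- `u ∉ S`, `w ∈ S`
      rw [← hyb1.2 hq] at hc ⊢
      have e1 : hyb S a b w = a := if_pos hp
      rcases hc with hc | hc
      · exact hD t u w _ _ e1.symm (fun s hs v => (hview.1 hp s hs v).symm) hc
      · exact (hD t u w _ _ e1 (hview.1 hp) hc).symm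
  intro t u w hcr
  by_cases ht : t < P.rounds
  · exact key (t, u, w) ((mem_crossList _ _ _ _ _).2 ⟨ht, hcr⟩)
  · rw [Protocol.sent_eq, Protocol.sent_eq P G (fun _ => b)]
    rw [if_neg (fun h => ht h.1), if_neg (fun h => ht h.1)]

/-- The lower bound, for protocols in which some player answers correctly. -/
theorem lower_bound [Fintype V] (G : SimpleGraph V) (n : ℕ) (P : Protocol V (Fin n → Bool))
    (u₀ : V) (hD : P.SelfDelimiting G) (hP : P.CorrectAt G u₀)
    (c : ℕ) (hc : ∀ x, P.cost G x ≤ c) (g : Finset V → ℝ) (hg : IsPacking G g) :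
    (n : ℝ) * ∑ S with IsCut S, g S ≤ c := by
  have h1 : ∀ S, IsCut S → ((n : ℝ) * 2 ^ n ≤ ∑ p : V × V with Crosses S s(p.1, p.2),
      ∑ a : Fin n → Bool, ∑ t ∈ range P.rounds, ((P.sent G (fun _ => a) t p.1 p.2).length : ℝ)) := by
    intro S hS
    have h2 := prefix_free_sum n (by simp) (fun a : Fin n → Bool => transcript P G S a)
      (fun a b h => transcript_inj P G u₀ hD hP S hS a b h)
    have h3 : ((n * 2 ^ n : ℕ) : ℝ) ≤
        ((∑ a : Fin n → Bool, (transcript P G S a).length : ℕ) : ℝ) := by exact_mod_cast h2
    push_cast at h3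
    refine h3.trans (le_of_eq ?_)
    rw [Finset.sum_comm]
    refine Finset.sum_congr rfl fun a _ => ?_
    rw [transcript_length, Finset.sum_comm]
    push_cast
    rfl
  set B : V × V → ℝ := fun p =>
    ∑ a : Fin n → Bool, ∑ t ∈ range P.rounds, ((P.sent G (fun _ => a) t p.1 p.2).length : ℝ) with hB
  have hB0 : ∀ p, 0 ≤ B p := fun p => by positivity
  have hBadj : ∀ p : V × V, ¬ G.Adj p.1 p.2 → B p = 0 := by
    intro p hp
    rw [hB]
    simp only
    refine Finset.sum_eq_zero fun a _ => Finset.sum_eq_zero fun t _ => ?_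
    rw [Protocol.sent_eq, if_neg (fun h => hp h.2)]
    simp
  have h2 : ∑ S with IsCut S, g S * ((n : ℝ) * 2 ^ n) ≤
      ∑ S with IsCut S, g S * ∑ p : V × V with Crosses S s(p.1, p.2), B p := by
    refine Finset.sum_le_sum fun S hS => ?_
    rw [Finset.mem_filter] at hS
    exact mul_le_mul_of_nonneg_left (h1 S hS.2) (hg.1 S).1
  have h3 : ∑ S with IsCut S, g S * ∑ p : V × V with Crosses S s(p.1, p.2), B p =
      ∑ p : V × V, B p * ∑ S with IsCut S ∧ Crosses S s(p.1, p.2), g S := by
    calc ∑ S with IsCut S, g S * ∑ p : V × V with Crosses S s(p.1, p.2), B p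
        = ∑ S : Finset V, ∑ p : V × V,
            (if IsCut S ∧ Crosses S s(p.1, p.2) then B p * g S else 0) := by
          rw [Finset.sum_filter]
          refine Finset.sum_congr rfl fun S _ => ?_
          by_cases hS : IsCut S
          · simp only [hS, if_true, true_and]
            rw [Finset.mul_sum, Finset.sum_filter]
            refine Finset.sum_congr rfl fun p _ => ?_
            split_ifs <;> ring
          · simp [hS]
      _ = ∑ p : V × V, ∑ S : Finset V,
            (if IsCut S ∧ Crosses S s(p.1, p.2) then B p * g S else 0) := Finset.sum_comm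
      _ = ∑ p : V × V, B p * ∑ S with IsCut S ∧ Crosses S s(p.1, p.2), g S := by
          refine Finset.sum_congr rfl fun p _ => ?_
          rw [Finset.mul_sum, Finset.sum_filter]
  have h4 : ∑ p : V × V, B p * ∑ S with IsCut S ∧ Crosses S s(p.1, p.2), g S ≤
      ∑ p : V × V, B p := by
    refine Finset.sum_le_sum fun p _ => ?_
    by_cases hp : G.Adj p.1 p.2
    · have := hg.2 s(p.1, p.2) hp
      exact mul_le_of_le_one_right (hB0 p) this
    · rw [hBadj p hp]
      simp
  have h5 : ∑ p : V × V, B p ≤ 2 ^ n * c := by
    have : ∑ p : V × V, B p = ∑ a : Fin n → Bool, ((P.cost G (fun _ => a) : ℕ) : ℝ) := by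
      rw [hB, Finset.sum_comm]
      refine Finset.sum_congr rfl fun a _ => ?_
      rw [Protocol.cost]
      push_cast
      rw [Finset.sum_comm]
      refine Finset.sum_congr rfl fun t _ => ?_
      rw [Fintype.sum_prod_type]
    rw [this]
    calc ∑ a : Fin n → Bool, ((P.cost G (fun _ => a) : ℕ) : ℝ) ≤ ∑ a : Fin n → Bool, (c : ℝ) :=
          Finset.sum_le_sum fun a _ => by exact_mod_cast hc _
      _ = 2 ^ n * c := by simp
  have h6 : (n : ℝ) * (∑ S with IsCut S, g S) * 2 ^ n ≤ c * 2 ^ n := by
    calc (n : ℝ) * (∑ S with IsCut S, g S) * 2 ^ n = ∑ S with IsCut S, g S * ((n : ℝ) * 2 ^ n) := by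
          rw [← Finset.sum_mul]; ring
      _ ≤ 2 ^ n * c := by linarith
      _ = c * 2 ^ n := by ring
  exact le_of_mul_le_mul_right h6 (by positivity)

end Pool.Agent.R547.EQ
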