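import Pool.Agent.R547.EQ.Lower

set_option autoImplicit false
set_option linter.unusedSectionVars false

/-! # The protocol of a labeling -/

namespace Pool.Agent.R547.EQ

open Finset
open scoped Classical

variable {V E : Type} [Fintype V] [Fintype E] (G : SimpleGraph V) (ends : E → V × V) {n L : ℕ}
  (ℓ : E → (Fin n → Bool) → (Fin L → Bool))

/-- The message of round `0`: the labels of the edges from `u` to `w`. -/
noncomputable def m0 (u w : V) (a : Fin n → Bool) : List Bool :=
  ((univ : Finset E).filter fun f => ends f = (u, w)).toList.flatMap fun f => List.ofFn (ℓ f a)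

theorem m0_length (u w : V) (a : Fin n → Bool) :
    (m0 ends ℓ u w a).length = ((univ : Finset E).filter fun f => ends f = (u, w)).card * L := by
  unfold m0
  rw [List.length_flatMap]
  simp

/-- All is well at `u` before round `t`. -/
def Stat (t : ℕ) (u : V) (a : Fin n → Bool) (rec : ℕ → V → List Bool) : Prop :=
  (∀ u', G.Adj u' u → rec 0 u' = m0 ends ℓ u' u a) ∧
    ∀ s, 1 ≤ s → s < t → ∀ u', G.Adj u' u → rec s u' = [true]

/-- The protocol: labels are sent in round `0`, then an alarm is broadcast. -/
noncomputable def labProtocol : Protocol V (Fin n → Bool) where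
  rounds := Fintype.card V + 1
  msg := fun t u w a rec => if t = 0 then m0 ends ℓ u w a else
    [decide (Stat G ends ℓ t u a rec)]
  out := fun u a rec => decide (Stat G ends ℓ (Fintype.card V + 1) u a rec)

variable (x : V → (Fin n → Bool))

theorem sent_zero (u w : V) (h : G.Adj u w) :
    (labProtocol G ends ℓ).sent G x 0 u w = m0 ends ℓ u w (x u) := by
  rw [Protocol.sent_eq, if_pos ⟨Nat.succ_pos _, h⟩]
  simp [labProtocol]

theorem sent_succ (t : ℕ) (ht : t < Fintype.card V) (u w : V) (h : G.Adj u w) :
    (labProtocol G ends ℓ).sent G x (t + 1) u w =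
      [decide (Stat G ends ℓ (t + 1) u (x u)
        (fun s v => (labProtocol G ends ℓ).sent G x s v u))] := by
  rw [Protocol.sent_eq, if_pos ⟨Nat.succ_lt_succ ht, h⟩]
  have e : (labProtocol G ends ℓ).msg (t + 1) u w (x u)
      (fun s v => if s < t + 1 then (labProtocol G ends ℓ).sent G x s v u else []) =
      [decide (Stat G ends ℓ (t + 1) u (x u)
        (fun s v => if s < t + 1 then (labProtocol G ends ℓ).sent G x s v u else []))] := rfl
  rw [e]
  congr 2
  rw [eq_iff_iff]
  unfold Stat
  constructor
  · rintro ⟨h1, h2⟩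
    refine ⟨fun u' hu' => ?_, fun s hs hst u' hu' => ?_⟩
    · have := h1 u' hu'
      simp only [Nat.succ_pos, if_true] at this
      exact this
    · have := h2 s hs hst u' hu'
      simp only [if_pos hst] at this
      exact this
  · rintro ⟨h1, h2⟩
    refine ⟨fun u' hu' => ?_, fun s hs hst u' hu' => ?_⟩
    · simp only [Nat.succ_pos, if_true]
      exact h1 u' hu'
    · simp only [if_pos hst]
      exact h2 s hs hst u' hu'

theorem sent_length (t : ℕ) (u w : V) :
    ((labProtocol G ends ℓ).sent G x t u w).length =
      if t < Fintype.card V + 1 ∧ G.Adj u w then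
        (if t = 0 then ((univ : Finset E).filter fun f => ends f = (u, w)).card * L else 1)
      else 0 := by
  by_cases h : t < Fintype.card V + 1 ∧ G.Adj u w
  · rw [if_pos h]
    cases t with
    | zero => rw [sent_zero G ends ℓ x u w h.2, m0_length, if_pos rfl]
    | succ t =>
      rw [sent_succ G ends ℓ x t (Nat.lt_of_succ_lt_succ h.1) u w h.2, if_neg (Nat.succ_ne_zero _)]
      rfl
  · have h' : ¬ (t < (labProtocol G ends ℓ).rounds ∧ G.Adj u w) := h
    rw [if_neg h, Protocol.sent_eq, if_neg h']
    rfl

theorem lab_selfDelimiting : (labProtocol G ends ℓ).SelfDelimiting G := by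
  intro t u w x y _ _ h
  exact h.eq_of_length (by rw [sent_length, sent_length])

theorem lab_cost : (labProtocol G ends ℓ).cost G x ≤
    Fintype.card E * L + Fintype.card V ^ 3 := by
  unfold Protocol.cost
  have e : (labProtocol G ends ℓ).rounds = Fintype.card V + 1 := rfl
  rw [e, Finset.sum_range_succ', add_comm]
  refine Nat.add_le_add ?_ ?_
  · have h1 : ∀ u w : V, ((labProtocol G ends ℓ).sent G x 0 u w).length ≤
        ((univ : Finset E).filter fun f => ends f = (u, w)).card * L := by
      intro u w
      rw [sent_length]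
      split_ifs <;> simp_all
    refine (Finset.sum_le_sum fun u _ => Finset.sum_le_sum fun w _ => h1 u w).trans
      (le_of_eq ?_)
    rw [← Fintype.sum_prod_type' (f := fun u w =>
      ((univ : Finset E).filter fun f => ends f = (u, w)).card * L), ← Finset.sum_mul]
    congr 1
    exact (Finset.card_eq_sum_card_fiberwise (f := ends) (s := (univ : Finset E))
      (t := (univ : Finset (V × V))) (fun _ _ => mem_univ _)).symm
  · have h1 : ∀ t, ∑ u, ∑ w, ((labProtocol G ends ℓ).sent G x (t + 1) u w).length ≤
        Fintype.card V * Fintype.card V := by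
      intro t
      calc ∑ u, ∑ w, ((labProtocol G ends ℓ).sent G x (t + 1) u w).length
          ≤ ∑ _u : V, ∑ _w : V, 1 := by
            refine Finset.sum_le_sum fun u _ => Finset.sum_le_sum fun w _ => ?_
            rw [sent_length]
            split_ifs <;> simp_all
        _ = Fintype.card V * Fintype.card V := by simp
    refine (Finset.sum_le_sum fun t _ => h1 t).trans (le_of_eq ?_)
    rw [Finset.sum_const, Finset.card_range, smul_eq_mul]
    ring

theorem stat_pred (t : ℕ) (ht : t < Fintype.card V) (u w : V) (h : G.Adj w u)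
    (hs : Stat G ends ℓ (t + 2) u (x u) (fun s v => (labProtocol G ends ℓ).sent G x s v u)) :
    Stat G ends ℓ (t + 1) w (x w) (fun s v => (labProtocol G ends ℓ).sent G x s v w) := by
  have h1 : (labProtocol G ends ℓ).sent G x (t + 1) w u = [true] :=
    hs.2 (t + 1) (by omega) (by omega) w h
  rw [sent_succ G ends ℓ x t ht w u h] at h1
  simpa using h1

theorem stat_walk (u w : V) (p : G.Walk u w) : ∀ t, p.length < t → t ≤ Fintype.card V + 1 →
    Stat G ends ℓ t u (x u) (fun s v => (labProtocol G ends ℓ).sent G x s v u) →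
    ∀ u', G.Adj u' w → (labProtocol G ends ℓ).sent G x 0 u' w = m0 ends ℓ u' w (x w) := by
  induction p with
  | nil =>
    intro t _ _ hs
    exact hs.1
  | cons h p ih =>
    intro t ht htV hs
    rw [SimpleGraph.Walk.length_cons] at ht
    obtain ⟨t', rfl⟩ : ∃ t', t = t' + 2 := ⟨t - 2, by omega⟩
    exact ih (t' + 1) (by omega) (by omega)
      (stat_pred G ends ℓ x t' (by omega) _ _ h.symm hs)

theorem m0_inj (u w : V) (a b : Fin n → Bool) (h : m0 ends ℓ u w a = m0 ends ℓ u w b) (f : E)
    (hf : ends f = (u, w)) : ℓ f a = ℓ f b := by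
  have h1 := flatMap_eq (fun f => List.ofFn (ℓ f a)) (fun f => List.ofFn (ℓ f b))
    ((univ : Finset E).filter fun f => ends f = (u, w)).toList (by
      intro _ g _ _ _ hc
      rcases hc with hc | hc
      · exact hc.eq_of_length (by simp)
      · exact (hc.eq_of_length (by simp)).symm) (by
      unfold m0 at h
      rw [h])
    f (by simp [hf])
  exact List.ofFn_injective h1

theorem lab_correct (hG : G.Connected) (hE : ∀ f, G.Adj (ends f).1 (ends f).2)
    (hl : ∀ X : V → (Fin n → Bool), (∀ f, ℓ f (X (ends f).1) = ℓ f (X (ends f).2)) →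
        ∀ u v, X u = X v) (u : V) : (labProtocol G ends ℓ).CorrectAt G u := by
  intro x
  have e : (labProtocol G ends ℓ).out u (x u)
      (fun s v => (labProtocol G ends ℓ).sent G x s v u) =
      decide (Stat G ends ℓ (Fintype.card V + 1) u (x u)
        (fun s v => (labProtocol G ends ℓ).sent G x s v u)) := rfl
  rw [e, decide_eq_true_iff]
  constructor
  · intro hs
    refine hl x fun f => ?_
    obtain ⟨p⟩ := hG.preconnected u (ends f).2
    have hp := p.toPath.2
    have h1 := stat_walk G ends ℓ x u (ends f).2 p.toPath.1 (Fintype.card V + 1)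
      (by have := hp.length_lt; omega) (le_refl _) hs (ends f).1 (hE f)
    rw [sent_zero G ends ℓ x _ _ (hE f)] at h1
    exact m0_inj ends ℓ _ _ _ _ h1 f rfl
  · intro hx
    have key : ∀ t, t ≤ Fintype.card V + 1 → ∀ u, Stat G ends ℓ t u (x u)
        (fun s v => (labProtocol G ends ℓ).sent G x s v u) := by
      intro t
      induction t using Nat.strong_induction_on with
      | _ t ih =>
        intro ht u
        refine ⟨fun u' hu' => ?_, fun s hs hst u' hu' => ?_⟩
        · change (labProtocol G ends ℓ).sent G x 0 u' u = _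
          rw [sent_zero G ends ℓ x _ _ hu', hx u' u]
        · obtain ⟨s', rfl⟩ : ∃ s', s = s' + 1 := ⟨s - 1, by omega⟩
          change (labProtocol G ends ℓ).sent G x (s' + 1) u' u = _
          rw [sent_succ G ends ℓ x s' (by omega) _ _ hu']
          simpa using ih (s' + 1) hst (by omega) u'
    exact key _ (le_refl _) u

theorem eqCost_le (hG : G.Connected) (hE : ∀ f, G.Adj (ends f).1 (ends f).2)
    (hl : ∀ X : V → (Fin n → Bool), (∀ f, ℓ f (X (ends f).1) = ℓ f (X (ends f).2)) →
        ∀ u v, X u = X v) : eqCost G n ≤ Fintype.card E * L + Fintype.card V ^ 3 :=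
  Nat.sInf_le ⟨labProtocol G ends ℓ, lab_selfDelimiting G ends ℓ,
    lab_correct G ends ℓ hG hE hl, fun x => lab_cost G ends ℓ x⟩

end Pool.Agent.R547.EQ
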