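import Pool.Agent.R547.EQ.Labels
import Pool.Agent.R547.EQ.Upper
import Pool.Agent.R547.EQ.LP

set_option autoImplicit false
set_option linter.unusedSectionVars false

/-! # The main theorem: `f(G) = fc(G)` -/

namespace Pool.Agent.R547.EQ

open Finset Filter Topology
open scoped Classical

variable {V : Type} [Fintype V] (G : SimpleGraph V)

theorem crosses_mk (S : Finset V) (a b : V) :
    Crosses S s(a, b) ↔ (a ∈ S ∧ b ∉ S) ∨ (a ∉ S ∧ b ∈ S) := by
  constructor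
  · rintro ⟨u, hu, w, hw, h⟩
    rw [Sym2.eq_iff] at h
    rcases h with ⟨rfl, rfl⟩ | ⟨rfl, rfl⟩
    · exact Or.inl ⟨hu, hw⟩
    · exact Or.inr ⟨hw, hu⟩
  · rintro (⟨h1, h2⟩ | ⟨h1, h2⟩)
    · exact ⟨a, h1, b, h2, rfl⟩
    · exact ⟨b, h2, a, h1, Sym2.eq_swap⟩

/-- The upper bound along a sequence. -/
theorem eqCost_bound (hG : G.Connected) (hV : ∀ u : V, ∃ w, w ≠ u) (c : ℝ) (hc : fc G < c) :
    ∃ (r M K W : ℕ), 0 < r ∧ (M : ℝ) < c * r ∧ ∀ n : ℕ,
      ∃ P : Protocol V (Fin n → Bool), P.SelfDelimiting G ∧ (∀ u, P.CorrectAt G u) ∧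
        ∀ x, P.cost G x ≤
          M * ((Nat.sqrt (n / r) + 1 + K) * (Nat.sqrt (n / r) + 1 + K + K)) + W := by
  obtain ⟨r, μ, hr, hM, hcut⟩ := exists_mult G hG c hc
  have : Nonempty V := hG.nonempty
  let E := Σ e : G.edgeSet, Fin (μ e)
  let ends : E → V × V := fun p => p.1.1.out
  have hends : ∀ p : E, s((ends p).1, (ends p).2) = p.1.1 := by
    intro p
    exact Quot.out_eq p.1.1
  have hE : ∀ p, G.Adj (ends p).1 (ends p).2 := by
    intro p
    have h1 : s((ends p).1, (ends p).2) ∈ G.edgeSet := by rw [hends]; exact p.1.2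
    exact h1
  have hcard : Fintype.card E = ∑ e, μ e := by
    rw [Fintype.card_sigma]
    simp
  have hcut' : ∀ U : Finset V, U.Nonempty → U ≠ univ → r ≤ (crossing ends U).card := by
    intro U h1 h2
    have h3 := hcut U ⟨h1, h2⟩
    have h4 : crossing ends U =
        ((univ : Finset G.edgeSet).filter fun e => Crosses U e.1).sigma fun _ => univ := by
      ext p
      rw [crossing, Finset.mem_filter, Finset.mem_sigma, Finset.mem_filter]
      rw [← crosses_mk, hends]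
      simp
    rw [h4, Finset.card_sigma]
    simpa using h3
  obtain ⟨K, hK⟩ := exists_labels ends hr (Classical.arbitrary V) hcut' hV
  refine ⟨r, Fintype.card E, K, Fintype.card V ^ 3, hr, ?_, ?_⟩
  · rw [hcard]
    exact hM
  · intro n
    obtain ⟨ℓ, hℓ⟩ := hK n
    exact ⟨labProtocol G ends ℓ, lab_selfDelimiting G ends ℓ,
      lab_correct G ends ℓ hG hE hℓ, fun x => lab_cost G ends ℓ x⟩

theorem asymp (r M K W : ℕ) (hr : 0 < r) (c : ℝ) (hc : (M : ℝ) < c * r) :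
    ∀ᶠ n : ℕ in atTop,
      ((M * ((Nat.sqrt (n / r) + 1 + K) * (Nat.sqrt (n / r) + 1 + K + K)) + W : ℕ) : ℝ) / n
        < c := by
  have hr' : (0 : ℝ) < r := by exact_mod_cast hr
  -- the limit of the upper bound
  have h1 : Tendsto (fun n : ℕ => (Real.sqrt n)⁻¹) atTop (𝓝 0) := by
    refine tendsto_inv_atTop_zero.comp ?_
    exact (Real.tendsto_sqrt_atTop).comp tendsto_natCast_atTop_atTop
  have h2 : Tendsto (fun n : ℕ => (M : ℝ) * (1 / r + 2 * (1 + 2 * K) * (Real.sqrt n)⁻¹ +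
      (1 + 2 * K) ^ 2 * ((Real.sqrt n)⁻¹ * (Real.sqrt n)⁻¹)) +
      W * ((Real.sqrt n)⁻¹ * (Real.sqrt n)⁻¹)) atTop
      (𝓝 ((M : ℝ) * (1 / r + 2 * (1 + 2 * K) * 0 + (1 + 2 * K) ^ 2 * (0 * 0)) + W * (0 * 0))) := by
    refine Tendsto.add (Tendsto.const_mul _ (Tendsto.add (Tendsto.add tendsto_const_nhds
      (Tendsto.const_mul _ h1)) (Tendsto.const_mul _ (h1.mul h1)))) (Tendsto.const_mul _
      (h1.mul h1))
  have h3 : (M : ℝ) * (1 / r + 2 * (1 + 2 * K) * 0 + (1 + 2 * K) ^ 2 * (0 * 0)) + W * (0 * 0) <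
      c := by
    have : (M : ℝ) * (1 / r + 2 * (1 + 2 * K) * 0 + (1 + 2 * K) ^ 2 * (0 * 0)) + W * (0 * 0) =
        M / r := by ring
    rw [this, div_lt_iff₀ hr']
    exact hc
  filter_upwards [h2.eventually_lt_const h3, eventually_gt_atTop 0] with n hn hn0
  refine lt_of_le_of_lt ?_ hn
  have hn0' : (0 : ℝ) < n := by exact_mod_cast hn0
  set s : ℝ := Real.sqrt n with hs
  have hs0 : 0 < s := Real.sqrt_pos.2 hn0'
  have hss : s * s = n := Real.mul_self_sqrt hn0'.le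
  set q : ℝ := Real.sqrt ((n : ℝ) / r) with hq
  have hq0 : 0 ≤ q := Real.sqrt_nonneg _
  have hqq : q * q = n / r := Real.mul_self_sqrt (by positivity)
  have hqs : q ≤ s := by
    refine Real.sqrt_le_sqrt ?_
    rw [div_le_iff₀ hr']
    have : (1 : ℝ) ≤ r := by exact_mod_cast hr
    nlinarith
  have hsq : ((Nat.sqrt (n / r) : ℕ) : ℝ) ≤ q := by
    refine Real.le_sqrt_of_sq_le ?_
    have h4 : Nat.sqrt (n / r) ^ 2 ≤ n / r := Nat.sqrt_le' _
    have h5 : ((Nat.sqrt (n / r) ^ 2 : ℕ) : ℝ) ≤ ((n / r : ℕ) : ℝ) := by exact_mod_cast h4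
    push_cast at h5
    exact h5.trans Nat.cast_div_le
  set m : ℝ := ((Nat.sqrt (n / r) : ℕ) : ℝ) with hm
  have hm0 : 0 ≤ m := by positivity
  have hprod : (m + 1 + K) * (m + 1 + K + K) ≤
      n / r + 2 * (1 + 2 * K) * s + (1 + 2 * K) ^ 2 := by
    have hK0 : (0 : ℝ) ≤ K := by positivity
    calc (m + 1 + K) * (m + 1 + K + K) ≤ (q + (1 + 2 * K)) * (q + (1 + 2 * K)) := by
          refine mul_le_mul ?_ ?_ (by positivity) (by positivity) <;> linarith
      _ = q * q + 2 * (1 + 2 * K) * q + (1 + 2 * K) ^ 2 := by ring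
      _ ≤ n / r + 2 * (1 + 2 * K) * s + (1 + 2 * K) ^ 2 := by
          rw [hqq]
          have : 2 * (1 + 2 * (K : ℝ)) * q ≤ 2 * (1 + 2 * K) * s :=
            mul_le_mul_of_nonneg_left hqs (by positivity)
          linarith
  push_cast
  rw [div_le_iff₀ hn0']
  have e1 : ((M : ℝ) * (1 / r + 2 * (1 + 2 * K) * s⁻¹ + (1 + 2 * K) ^ 2 * (s⁻¹ * s⁻¹)) +
      W * (s⁻¹ * s⁻¹)) * n =
      M * (n / r + 2 * (1 + 2 * K) * s + (1 + 2 * K) ^ 2) + W := by
    rw [← hss]
    field_simp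
  rw [e1]
  have := mul_le_mul_of_nonneg_left hprod (show (0 : ℝ) ≤ M by positivity)
  linarith

theorem zero_packing : IsPacking G (fun _ => 0) := by
  refine ⟨fun S => by simp, fun e _ => by simp⟩

theorem fc_le_div (n : ℕ) (hn : 0 < n) (P : Protocol V (Fin n → Bool)) (u₀ : V)
    (hD : P.SelfDelimiting G) (hP : P.CorrectAt G u₀) (c : ℕ) (hc : ∀ x, P.cost G x ≤ c) :
    fc G ≤ (c : ℝ) / n := by
  have hn0 : (0 : ℝ) < n := by exact_mod_cast hn
  refine csSup_le ⟨_, _, zero_packing G, rfl⟩ ?_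
  rintro w ⟨g, hg, rfl⟩
  rw [le_div_iff₀ hn0, mul_comm]
  exact lower_bound G n P u₀ hD hP c hc g hg

/-- For every connected graph with at least two vertices the limit of `f(n, G) / n` is `fc(G)`,
no matter whether all players or only one player has to know the answer. -/
theorem tendsto_eqCost (hG : G.Connected) (hV : ∀ u : V, ∃ w, w ≠ u) :
    Tendsto (fun n : ℕ => (eqCost G n : ℝ) / n) atTop (𝓝 (fc G)) ∧
    Tendsto (fun n : ℕ => (eqCostOne G n : ℝ) / n) atTop (𝓝 (fc G)) := by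
  have : Nonempty V := hG.nonempty
  have hne1 : ∀ n, {c | ∃ P : Protocol V (Fin n → Bool), P.SelfDelimiting G ∧
      (∀ u, P.CorrectAt G u) ∧ ∀ x, P.cost G x ≤ c}.Nonempty := by
    intro n
    obtain ⟨r, M, K, W, -, -, h⟩ := eqCost_bound G hG hV (fc G + 1) (by linarith)
    obtain ⟨P, h1, h2, h3⟩ := h n
    exact ⟨_, P, h1, h2, h3⟩
  have hsub : ∀ n, {c | ∃ P : Protocol V (Fin n → Bool), P.SelfDelimiting G ∧
      (∀ u, P.CorrectAt G u) ∧ ∀ x, P.cost G x ≤ c} ⊆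
      {c | ∃ P : Protocol V (Fin n → Bool), P.SelfDelimiting G ∧
      (∃ u, P.CorrectAt G u) ∧ ∀ x, P.cost G x ≤ c} := by
    rintro n c ⟨P, h1, h2, h3⟩
    exact ⟨P, h1, ⟨Classical.arbitrary V, h2 _⟩, h3⟩
  have hlow : ∀ n, 0 < n → fc G ≤ (eqCostOne G n : ℝ) / n := by
    intro n hn
    obtain ⟨P, h1, ⟨u, h2⟩, h3⟩ := Nat.sInf_mem ((hne1 n).mono (hsub n))
    exact fc_le_div G n hn P u h1 h2 _ h3
  have hle : ∀ n, eqCostOne G n ≤ eqCost G n := fun n =>
    Nat.sInf_le (hsub n (Nat.sInf_mem (hne1 n)))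
  have hup : ∀ c, fc G < c → ∀ᶠ n : ℕ in atTop, (eqCost G n : ℝ) / n < c := by
    intro c hc
    obtain ⟨r, M, K, W, hr, hM, h⟩ := eqCost_bound G hG hV c hc
    filter_upwards [asymp r M K W hr c hM] with n hn
    obtain ⟨P, h1, h2, h3⟩ := h n
    refine lt_of_le_of_lt ?_ hn
    have h4 : eqCost G n ≤ _ := Nat.sInf_le ⟨P, h1, h2, h3⟩
    have h5 : ((eqCost G n : ℕ) : ℝ) ≤ ((M * ((Nat.sqrt (n / r) + 1 + K) *
      (Nat.sqrt (n / r) + 1 + K + K)) + W : ℕ) : ℝ) := by exact_mod_cast h4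
    exact div_le_div_of_nonneg_right h5 (by positivity)
  have hle' : ∀ n : ℕ, (eqCostOne G n : ℝ) / n ≤ (eqCost G n : ℝ) / n := by
    intro n
    refine div_le_div_of_nonneg_right ?_ (by positivity)
    exact_mod_cast hle n
  constructor
  · refine tendsto_order.2 ⟨fun a ha => ?_, hup⟩
    filter_upwards [eventually_gt_atTop 0] with n hn
    exact lt_of_lt_of_le ha ((hlow n hn).trans (hle' n))
  · refine tendsto_order.2 ⟨fun a ha => ?_, fun c hc => ?_⟩
    · filter_upwards [eventually_gt_atTop 0] with n hn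
      exact lt_of_lt_of_le ha (hlow n hn)
    · filter_upwards [hup c hc] with n hn
      exact lt_of_le_of_lt (hle' n) hn

end Pool.Agent.R547.EQ
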