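import Pool.Agent.R547.EQ.Main
import Pool.Agent.R547.EQ.Cut3

set_option autoImplicit false
set_option linter.unusedSectionVars false

/-! # The Petersen graph -/

namespace Pool.Agent.R547.EQ

open Finset
open scoped Classical

section General
variable {V : Type} [Fintype V] (G : SimpleGraph V)

/-- `m` is a 2-edge-connected spanning subgraph of `G` which may use edges twice: `m e` is the
number of times the edge `e` is used, and every cut contains at least two (copies of) edges. -/
def IsTwoConn (m : Sym2 V → ℕ) : Prop :=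
  (∀ e, m e ≤ 2) ∧ (∀ e, e ∉ G.edgeSet → m e = 0) ∧
    ∀ S, IsCut S → 2 ≤ ∑ e with Crosses S e, m e

/-- `c₂(G)`: the minimum number of edges of a 2-edge-connected spanning subgraph of `G` which may
use edges twice. -/
noncomputable def c2 : ℕ := sInf {c | ∃ m, IsTwoConn G m ∧ c = ∑ e, m e}

theorem boundary_edge {u v : V} (p : G.Walk u v) (S : Finset V)
    (h : (u ∈ S ∧ v ∉ S) ∨ (u ∉ S ∧ v ∈ S)) : ∃ e ∈ p.edges, Crosses S e := by
  have key : ∀ {u v : V} (p : G.Walk u v), u ∈ S → v ∉ S → ∃ e ∈ p.edges, Crosses S e := by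
    intro u v p hu hv
    obtain ⟨d, hd, h1, h2⟩ := p.exists_boundary_dart (S : Set V) hu hv
    refine ⟨d.edge, ?_, d.fst, h1, d.snd, h2, rfl⟩
    exact List.mem_map.2 ⟨d, hd, rfl⟩
  rcases h with h | h
  · exact key p h.1 h.2
  · obtain ⟨e, he, hc⟩ := key p.reverse h.2 h.1
    rw [SimpleGraph.Walk.edges_reverse, List.mem_reverse] at he
    exact ⟨e, he, hc⟩

/-- A Hamiltonian cycle is a 2-edge-connected spanning subgraph with `|V|` edges. -/
theorem c2_le_of_isHamiltonian [DecidableEq V] (hG : G.IsHamiltonian) (hV : Fintype.card V ≠ 1) :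
    c2 G ≤ Fintype.card V := by
  obtain ⟨a, p, hp⟩ := hG hV
  refine Nat.sInf_le ⟨fun e => if e ∈ p.edges then 1 else 0, ⟨?_, ?_, ?_⟩, ?_⟩
  · intro e
    simp only
    split_ifs <;> simp
  · intro e he
    simp only
    rw [if_neg (fun h => he (SimpleGraph.Walk.edges_subset_edgeSet p h))]
  · intro S hS
    have hnd : p.edges.Nodup := hp.isCycle.isTrail.edges_nodup
    -- a vertex on the other side
    obtain ⟨q, hq⟩ : ∃ q, (a ∈ S ∧ q ∉ S) ∨ (a ∉ S ∧ q ∈ S) := by
      obtain ⟨⟨q, hq⟩, hne⟩ := hS
      obtain ⟨q', hq'⟩ : ∃ q, q ∉ S := by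
        by_contra hcon
        push Not at hcon
        exact hne (Finset.eq_univ_iff_forall.2 hcon)
      by_cases ha : a ∈ S
      · exact ⟨q', Or.inl ⟨ha, hq'⟩⟩
      · exact ⟨q, Or.inr ⟨ha, hq⟩⟩
    have hqp : q ∈ p.support := hp.mem_support q
    have hspec : (p.takeUntil q hqp).append (p.dropUntil q hqp) = p :=
      SimpleGraph.Walk.take_spec p hqp
    obtain ⟨e₁, he₁, hc₁⟩ := boundary_edge G (p.takeUntil q hqp) S hq
    obtain ⟨e₂, he₂, hc₂⟩ := boundary_edge G (p.dropUntil q hqp) S
      (hq.elim (fun h => Or.inr ⟨h.2, h.1⟩) (fun h => Or.inl ⟨h.2, h.1⟩))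
    rw [← hspec, SimpleGraph.Walk.edges_append] at hnd
    have hne : e₁ ≠ e₂ := by
      rintro rfl
      exact (List.disjoint_of_nodup_append hnd) he₁ he₂
    have hm₁ : e₁ ∈ p.edges := by
      rw [← hspec, SimpleGraph.Walk.edges_append]
      exact List.mem_append_left _ he₁
    have hm₂ : e₂ ∈ p.edges := by
      rw [← hspec, SimpleGraph.Walk.edges_append]
      exact List.mem_append_right _ he₂
    have hsub : ({e₁, e₂} : Finset (Sym2 V)) ⊆ univ.filter fun e => Crosses S e := by
      intro e he
      rw [Finset.mem_insert, Finset.mem_singleton] at he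
      rw [Finset.mem_filter]
      rcases he with rfl | rfl
      · exact ⟨mem_univ _, hc₁⟩
      · exact ⟨mem_univ _, hc₂⟩
    refine le_trans ?_ (Finset.sum_le_sum_of_subset hsub)
    rw [Finset.sum_pair hne, if_pos hm₁, if_pos hm₂]
  · have hnd : p.edges.Nodup := hp.isCycle.isTrail.edges_nodup
    have h1 : ∑ e : Sym2 V, (if e ∈ p.edges then 1 else 0) = p.edges.toFinset.card := by
      rw [Finset.card_eq_sum_ones, ← Finset.sum_filter]
      refine Finset.sum_congr ?_ fun _ _ => rfl
      ext e
      simp
    rw [h1, List.toFinset_card_of_nodup hnd, SimpleGraph.Walk.length_edges, hp.length_eq]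

end General

/-- The edges of the Petersen graph. -/
def pEdges : List (Fin 10 × Fin 10) :=
  [(0, 1), (1, 2), (2, 3), (3, 4), (4, 0), (0, 5), (1, 6), (2, 7), (3, 8), (4, 9),
    (5, 7), (6, 8), (7, 9), (8, 5), (9, 6)]

/-- The Petersen graph. -/
def petersen : SimpleGraph (Fin 10) where
  Adj a b := (a, b) ∈ pEdges ∨ (b, a) ∈ pEdges
  symm := ⟨fun _ _ h => h.symm⟩
  loopless := ⟨by decide⟩

theorem petersen_adj (a b : Fin 10) (h : (a, b) ∈ pEdges) : petersen.Adj a b := Or.inl h

theorem petersen_connected : petersen.Connected := by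
  have hadj : ∀ a b : Fin 10, (a, b) ∈ pEdges → petersen.Reachable a b := fun a b h =>
    (petersen_adj a b h).reachable
  have h1 := hadj 0 1 (by decide)
  have h2 := h1.trans (hadj 1 2 (by decide))
  have h3 := h2.trans (hadj 2 3 (by decide))
  have h4 := h3.trans (hadj 3 4 (by decide))
  have h5 := hadj 0 5 (by decide)
  have h6 := h1.trans (hadj 1 6 (by decide))
  have h7 := h2.trans (hadj 2 7 (by decide))
  have h8 := h3.trans (hadj 3 8 (by decide))
  have h9 := h4.trans (hadj 4 9 (by decide))
  have hall : ∀ v : Fin 10, petersen.Reachable 0 v := by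
    intro v
    fin_cases v
    · exact SimpleGraph.Reachable.refl _
    · exact h1
    · exact h2
    · exact h3
    · exact h4
    · exact h5
    · exact h6
    · exact h7
    · exact h8
    · exact h9
  exact ⟨fun u v => (hall u).symm.trans (hall v)⟩

/-- The sides of a cut as Boolean values. -/
noncomputable def bb (S : Finset (Fin 10)) (i : Fin 10) : Bool := decide (i ∈ S)

theorem crosses_bb (S : Finset (Fin 10)) (a b : Fin 10) :
    Crosses S s(a, b) ↔ (bb S a ^^ bb S b) = true := by
  rw [crosses_mk, bb, bb]
  by_cases ha : a ∈ S <;> by_cases hb : b ∈ S <;> simp [ha, hb]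

theorem ite_crosses (S : Finset (Fin 10)) (a b : Fin 10) :
    (if Crosses S s(a, b) then 1 else 0) = (bb S a ^^ bb S b).toNat := by
  by_cases h : Crosses S s(a, b)
  · rw [if_pos h, (crosses_bb S a b).1 h]; rfl
  · rw [if_neg h]
    have : (bb S a ^^ bb S b) = false := by
      rw [← Bool.not_eq_true]
      exact fun h' => h ((crosses_bb S a b).2 h')
    rw [this]; rfl

theorem cut3 (S : Finset (Fin 10)) (hS : IsCut S) :
    3 ≤ (pEdges.map fun p => if Crosses S s(p.1, p.2) then 1 else 0).sum := by
  have h := cut3_aux (bb S 0) (bb S 1) (bb S 2) (bb S 3) (bb S 4) (bb S 5) (bb S 6) (bb S 7)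
    (bb S 8) (bb S 9)
  rcases h with h | h
  · exfalso
    obtain ⟨⟨p, hp⟩, hne⟩ := hS
    obtain ⟨q, hq⟩ : ∃ q, q ∉ S := by
      by_contra hcon
      push Not at hcon
      exact hne (Finset.eq_univ_iff_forall.2 hcon)
    have hall : ∀ i, bb S i = bb S 0 := by
      obtain ⟨h1, h2, h3, h4, h5, h6, h7, h8, h9⟩ := h
      intro i
      fin_cases i
      · rfl
      · exact h1.symm
      · exact h2.symm
      · exact h3.symm
      · exact h4.symm
      · exact h5.symm
      · exact h6.symm
      · exact h7.symm
      · exact h8.symm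
      · exact h9.symm
    have h1 : bb S p = bb S q := (hall p).trans (hall q).symm
    rw [bb, bb] at h1
    simp [hp, hq] at h1
  · simp only [pEdges, List.map_cons, List.map_nil, List.sum_cons, List.sum_nil, ite_crosses,
      add_zero]
    exact h

/-- `fc(P) = 5`. -/
theorem petersen_fc : fc petersen = 5 := by
  apply le_antisymm
  · refine csSup_le ⟨_, _, zero_packing petersen, rfl⟩ ?_
    rintro w ⟨g, hg, rfl⟩
    have h1 : ∑ S with IsCut S, 3 * g S ≤ ∑ S with IsCut S,
        (pEdges.map fun p => if Crosses S s(p.1, p.2) then g S else 0).sum := by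
      refine Finset.sum_le_sum fun S hS => ?_
      rw [Finset.mem_filter] at hS
      have h2 := cut3 S hS.2
      have h3 : (pEdges.map fun p => if Crosses S s(p.1, p.2) then g S else 0).sum =
          ((pEdges.map fun p => if Crosses S s(p.1, p.2) then 1 else 0).sum : ℕ) * g S := by
        rw [Nat.cast_list_sum, List.map_map, ← List.sum_map_mul_right]
        congr 1
        refine List.map_congr_left fun p _ => ?_
        simp only [Function.comp]
        split_ifs <;> simp
      rw [h3]
      refine mul_le_mul_of_nonneg_right ?_ (hg.1 S).1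
      exact_mod_cast h2
    have h2 : ∑ S with IsCut S,
        (pEdges.map fun p => if Crosses S s(p.1, p.2) then g S else 0).sum ≤ 15 := by
      have h3 : ∀ a b : Fin 10, (a, b) ∈ pEdges →
          ∑ S with IsCut S, (if Crosses S s(a, b) then g S else 0) ≤ 1 := by
        intro a b hab
        have h4 := hg.2 s(a, b) (petersen_adj a b hab)
        rw [← Finset.sum_filter, Finset.filter_filter]
        exact h4
      simp only [pEdges, List.map_cons, List.map_nil, List.sum_cons, List.sum_nil, add_zero,
        Finset.sum_add_distrib]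
      have e1 := h3 0 1 (by decide)
      have e2 := h3 1 2 (by decide)
      have e3 := h3 2 3 (by decide)
      have e4 := h3 3 4 (by decide)
      have e5 := h3 4 0 (by decide)
      have e6 := h3 0 5 (by decide)
      have e7 := h3 1 6 (by decide)
      have e8 := h3 2 7 (by decide)
      have e9 := h3 3 8 (by decide)
      have e10 := h3 4 9 (by decide)
      have e11 := h3 5 7 (by decide)
      have e12 := h3 6 8 (by decide)
      have e13 := h3 7 9 (by decide)
      have e14 := h3 8 5 (by decide)
      have e15 := h3 9 6 (by decide)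
      linarith
    rw [← Finset.mul_sum] at h1
    linarith
  · have hp : IsPacking petersen (fun S => if S.card = 1 then 1 / 2 else 0) := by
      constructor
      · intro S
        simp only
        split_ifs <;> norm_num
      · intro e he
        induction e using Sym2.ind with
        | _ a b =>
        have hab : a ≠ b := fun h => petersen.loopless.irrefl a (by rw [← h] at he; exact he)
        rw [← Finset.sum_filter, Finset.filter_filter]
        have hsub : (univ.filter fun S : Finset (Fin 10) =>
            (IsCut S ∧ Crosses S s(a, b)) ∧ S.card = 1) ⊆ {{a}, {b}} := by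
          intro S hS
          rw [Finset.mem_filter] at hS
          obtain ⟨-, ⟨-, hc⟩, h1⟩ := hS
          obtain ⟨c, rfl⟩ := Finset.card_eq_one.1 h1
          rw [crosses_mk] at hc
          simp only [Finset.mem_singleton] at hc
          rw [Finset.mem_insert, Finset.mem_singleton]
          rcases hc with hc | hc
          · left; rw [hc.1]
          · right; rw [hc.2]
        calc ∑ S with (IsCut S ∧ Crosses S s(a, b)) ∧ S.card = 1, (1 / 2 : ℝ)
            ≤ ∑ S ∈ ({{a}, {b}} : Finset (Finset (Fin 10))), (1 / 2 : ℝ) :=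
              Finset.sum_le_sum_of_subset_of_nonneg hsub (fun _ _ _ => by norm_num)
          _ ≤ 1 := by
              rw [Finset.sum_const, nsmul_eq_mul]
              have : (({{a}, {b}} : Finset (Finset (Fin 10))).card : ℝ) ≤ 2 := by
                exact_mod_cast Finset.card_le_two
              linarith
    have h1 := le_fc petersen _ hp
    refine le_trans (le_of_eq ?_) h1
    rw [← Finset.sum_filter, Finset.filter_filter]
    have h2 : (univ.filter fun S : Finset (Fin 10) => IsCut S ∧ S.card = 1) =
        (univ : Finset (Fin 10)).image fun i => {i} := by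
      ext S
      rw [Finset.mem_filter, Finset.mem_image]
      constructor
      · rintro ⟨-, -, h⟩
        obtain ⟨c, rfl⟩ := Finset.card_eq_one.1 h
        exact ⟨c, mem_univ _, rfl⟩
      · rintro ⟨c, -, rfl⟩
        refine ⟨mem_univ _, ⟨⟨c, by simp⟩, ?_⟩, by simp⟩
        intro h
        have := congrArg Finset.card h
        simp at this
    rw [h2, Finset.sum_image (fun _ _ _ _ h => Finset.singleton_injective h)]
    simp
    norm_num

end Pool.Agent.R547.EQ
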