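import Pool.Agent.R547.EQ.Petersen
import Pool.Agent.R547.EQ.Arith

set_option autoImplicit false
set_option linter.unusedSectionVars false

/-! # The Petersen graph: `c₂ = 11` -/

namespace Pool.Agent.R547.EQ

open Finset
open scoped Classical

/-- The unordered pairs of the edges of the Petersen graph. -/
def pList : List (Sym2 (Fin 10)) := pEdges.map fun p => s(p.1, p.2)

theorem pList_nodup : pList.Nodup := by decide +kernel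

theorem mem_pList (e : Sym2 (Fin 10)) (he : e ∈ petersen.edgeSet) : e ∈ pList := by
  induction e using Sym2.ind with
  | _ a b =>
  have h : (a, b) ∈ pEdges ∨ (b, a) ∈ pEdges := he
  rw [pList, List.mem_map]
  rcases h with h | h
  · exact ⟨(a, b), h, rfl⟩
  · exact ⟨(b, a), h, Sym2.eq_swap⟩

theorem sum_pList (F : Sym2 (Fin 10) → ℕ) (h0 : ∀ e, e ∉ petersen.edgeSet → F e = 0) :
    ∑ e, F e = (pEdges.map fun p => F s(p.1, p.2)).sum := by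
  have h1 : ∑ e, F e = ∑ e ∈ pList.toFinset, F e := by
    symm
    refine Finset.sum_subset (Finset.subset_univ _) fun e _ he => ?_
    refine h0 e fun h => he ?_
    rw [List.mem_toFinset]
    exact mem_pList e h
  rw [h1, List.sum_toFinset _ pList_nodup, pList, List.map_map]
  rfl

theorem cut_sum (m : Sym2 (Fin 10) → ℕ) (h0 : ∀ e, e ∉ petersen.edgeSet → m e = 0)
    (S : Finset (Fin 10)) : ∑ e with Crosses S e, m e =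
      (pEdges.map fun p => (bb S p.1 ^^ bb S p.2).toNat * m s(p.1, p.2)).sum := by
  rw [Finset.sum_filter, sum_pList]
  · congr 1
    refine List.map_congr_left fun p _ => ?_
    rw [← ite_crosses]
    split_ifs <;> simp
  · intro e he
    rw [h0 e he, ite_self]

theorem bool_const (S : Finset (Fin 10)) (hS : IsCut S) :
    ¬ (bb S 0 = bb S 1 ∧ bb S 0 = bb S 2 ∧ bb S 0 = bb S 3 ∧ bb S 0 = bb S 4 ∧ bb S 0 = bb S 5 ∧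
      bb S 0 = bb S 6 ∧ bb S 0 = bb S 7 ∧ bb S 0 = bb S 8 ∧ bb S 0 = bb S 9) := by
  intro h
  obtain ⟨⟨p, hp⟩, hne⟩ := hS
  obtain ⟨q, hq⟩ : ∃ q, q ∉ S := by
    by_contra hcon
    push Not at hcon
    exact hne (Finset.eq_univ_iff_forall.2 hcon)
  have hall : ∀ i, bb S i = bb S 0 := by
    obtain ⟨h1, h2, h3, h4, h5, h6, h7, h8, h9⟩ := h
    intro i
    fin_cases i
    · rfl
    · exact h1.symm
    · exact h2.symm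
    · exact h3.symm
    · exact h4.symm
    · exact h5.symm
    · exact h6.symm
    · exact h7.symm
    · exact h8.symm
    · exact h9.symm
  have h1 : bb S p = bb S q := (hall p).trans (hall q).symm
  rw [bb, bb] at h1
  simp [hp, hq] at h1

theorem mEx_zero (e : Sym2 (Fin 10)) (he : e ∉ petersen.edgeSet) : mEx e = 0 := by
  have hsub : ∀ e ∈ ([s(1, 6), s(0, 1), s(1, 2), s(2, 3), s(3, 8), s(8, 5), s(5, 7), s(7, 9),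
      s(4, 9), s(4, 0)] : List (Sym2 (Fin 10))), e ∈ petersen.edgeSet := by
    intro e he
    simp only [List.mem_cons, List.not_mem_nil, or_false] at he
    rcases he with rfl | rfl | rfl | rfl | rfl | rfl | rfl | rfl | rfl | rfl
    · exact petersen_adj 1 6 (by decide)
    · exact petersen_adj 0 1 (by decide)
    · exact petersen_adj 1 2 (by decide)
    · exact petersen_adj 2 3 (by decide)
    · exact petersen_adj 3 8 (by decide)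
    · exact petersen_adj 8 5 (by decide)
    · exact petersen_adj 5 7 (by decide)
    · exact petersen_adj 7 9 (by decide)
    · exact petersen_adj 4 9 (by decide)
    · exact petersen_adj 4 0 (by decide)
  unfold mEx
  rw [if_neg, if_neg]
  · intro h
    exact he (hsub e (List.mem_cons_of_mem _ h))
  · rintro rfl
    exact he (hsub _ (by simp))

theorem mEx_twoConn : IsTwoConn petersen mEx := by
  refine ⟨mEx_le, mEx_zero, fun S hS => ?_⟩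
  rw [cut_sum mEx mEx_zero]
  have h := cut2_aux (bb S 0) (bb S 1) (bb S 2) (bb S 3) (bb S 4) (bb S 5) (bb S 6) (bb S 7)
    (bb S 8) (bb S 9)
  rcases h with h | h
  · exact absurd h (bool_const S hS)
  · simp only [pEdges, List.map_cons, List.map_nil, List.sum_cons, List.sum_nil, add_zero,
      mEx_0_1, mEx_1_2, mEx_2_3, mEx_3_4, mEx_4_0, mEx_0_5, mEx_1_6, mEx_2_7, mEx_3_8, mEx_4_9, mEx_5_7, mEx_6_8, mEx_7_9, mEx_8_5, mEx_9_6]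
    omega

theorem mEx_sum : ∑ e, mEx e = 11 := by
  rw [sum_pList mEx mEx_zero]
  set_option linter.unusedSimpArgs false in
  simp only [pEdges, List.map_cons, List.map_nil, List.sum_cons, List.sum_nil,
    mEx_0_1, mEx_1_2, mEx_2_3, mEx_3_4, mEx_4_0, mEx_0_5, mEx_1_6, mEx_2_7, mEx_3_8, mEx_4_9, mEx_5_7, mEx_6_8, mEx_7_9, mEx_8_5, mEx_9_6]
  rfl

theorem isCut_of (S : Finset (Fin 10)) (a b : Fin 10) (ha : a ∈ S) (hb : b ∉ S) : IsCut S :=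
  ⟨⟨a, ha⟩, fun h => hb (h ▸ mem_univ b)⟩

theorem cut_mask (m : Sym2 (Fin 10) → ℕ) (hm : IsTwoConn petersen m) (β : Fin 10 → Bool)
    (a b : Fin 10) (ha : β a = true) (hb : β b = false) :
    2 ≤ (β 0 ^^ β 1).toNat * m s(0, 1) + ((β 1 ^^ β 2).toNat * m s(1, 2) + ((β 2 ^^ β 3).toNat * m s(2, 3) + ((β 3 ^^ β 4).toNat * m s(3, 4) + ((β 4 ^^ β 0).toNat * m s(4, 0) + ((β 0 ^^ β 5).toNat * m s(0, 5) + ((β 1 ^^ β 6).toNat * m s(1, 6) + ((β 2 ^^ β 7).toNat * m s(2, 7) + ((β 3 ^^ β 8).toNat * m s(3, 8) + ((β 4 ^^ β 9).toNat * m s(4, 9) + ((β 5 ^^ β 7).toNat * m s(5, 7) + ((β 6 ^^ β 8).toNat * m s(6, 8) + ((β 7 ^^ β 9).toNat * m s(7, 9) + ((β 8 ^^ β 5).toNat * m s(8, 5) + ((β 9 ^^ β 6).toNat * m s(9, 6))))))))))))))) := by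
  obtain ⟨-, h0, hcut⟩ := hm
  have h1 := hcut (univ.filter fun i => β i = true) (isCut_of _ a b (by simp [ha]) (by simp [hb]))
  rw [cut_sum m h0] at h1
  have h2 : ∀ i, bb (univ.filter fun i => β i = true) i = β i := by
    intro i
    rw [bb]
    cases h : β i <;> simp [h]
  simp only [pEdges, List.map_cons, List.map_nil, List.sum_cons, List.sum_nil, add_zero, h2] at h1
  exact h1

theorem eleven_le (m : Sym2 (Fin 10) → ℕ) (hm : IsTwoConn petersen m) : 11 ≤ ∑ e, m e := by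
  rw [sum_pList m hm.2.1]
  have hc := cut_mask m hm
  simp only [pEdges, List.map_cons, List.map_nil, List.sum_cons, List.sum_nil, add_zero]
  by_contra hlt
  rw [not_le] at hlt
  have h0 : 2 ≤ 1 * m s(0, 1) + (0 * m s(1, 2) + (0 * m s(2, 3) + (0 * m s(3, 4) + (1 * m s(4, 0) + (1 * m s(0, 5) + (0 * m s(1, 6) + (0 * m s(2, 7) + (0 * m s(3, 8) + (0 * m s(4, 9) + (0 * m s(5, 7) + (0 * m s(6, 8) + (0 * m s(7, 9) + (0 * m s(8, 5) + (0 * m s(9, 6))))))))))))))) :=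
    hc (fun i => Nat.testBit 1 i.1) 0 1 rfl rfl
  have h1 : 2 ≤ 1 * m s(0, 1) + (1 * m s(1, 2) + (0 * m s(2, 3) + (0 * m s(3, 4) + (0 * m s(4, 0) + (0 * m s(0, 5) + (1 * m s(1, 6) + (0 * m s(2, 7) + (0 * m s(3, 8) + (0 * m s(4, 9) + (0 * m s(5, 7) + (0 * m s(6, 8) + (0 * m s(7, 9) + (0 * m s(8, 5) + (0 * m s(9, 6))))))))))))))) :=
    hc (fun i => Nat.testBit 2 i.1) 1 0 rfl rfl
  have h2 : 2 ≤ 0 * m s(0, 1) + (1 * m s(1, 2) + (1 * m s(2, 3) + (0 * m s(3, 4) + (0 * m s(4, 0) + (0 * m s(0, 5) + (0 * m s(1, 6) + (1 * m s(2, 7) + (0 * m s(3, 8) + (0 * m s(4, 9) + (0 * m s(5, 7) + (0 * m s(6, 8) + (0 * m s(7, 9) + (0 * m s(8, 5) + (0 * m s(9, 6))))))))))))))) :=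
    hc (fun i => Nat.testBit 4 i.1) 2 0 rfl rfl
  have h3 : 2 ≤ 0 * m s(0, 1) + (0 * m s(1, 2) + (1 * m s(2, 3) + (1 * m s(3, 4) + (0 * m s(4, 0) + (0 * m s(0, 5) + (0 * m s(1, 6) + (0 * m s(2, 7) + (1 * m s(3, 8) + (0 * m s(4, 9) + (0 * m s(5, 7) + (0 * m s(6, 8) + (0 * m s(7, 9) + (0 * m s(8, 5) + (0 * m s(9, 6))))))))))))))) :=
    hc (fun i => Nat.testBit 8 i.1) 3 0 rfl rfl
  have h4 : 2 ≤ 0 * m s(0, 1) + (0 * m s(1, 2) + (0 * m s(2, 3) + (1 * m s(3, 4) + (1 * m s(4, 0) + (0 * m s(0, 5) + (0 * m s(1, 6) + (0 * m s(2, 7) + (0 * m s(3, 8) + (1 * m s(4, 9) + (0 * m s(5, 7) + (0 * m s(6, 8) + (0 * m s(7, 9) + (0 * m s(8, 5) + (0 * m s(9, 6))))))))))))))) :=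
    hc (fun i => Nat.testBit 16 i.1) 4 0 rfl rfl
  have h5 : 2 ≤ 0 * m s(0, 1) + (0 * m s(1, 2) + (0 * m s(2, 3) + (0 * m s(3, 4) + (0 * m s(4, 0) + (1 * m s(0, 5) + (0 * m s(1, 6) + (0 * m s(2, 7) + (0 * m s(3, 8) + (0 * m s(4, 9) + (1 * m s(5, 7) + (0 * m s(6, 8) + (0 * m s(7, 9) + (1 * m s(8, 5) + (0 * m s(9, 6))))))))))))))) :=
    hc (fun i => Nat.testBit 32 i.1) 5 0 rfl rfl
  have h6 : 2 ≤ 0 * m s(0, 1) + (0 * m s(1, 2) + (0 * m s(2, 3) + (0 * m s(3, 4) + (0 * m s(4, 0) + (0 * m s(0, 5) + (1 * m s(1, 6) + (0 * m s(2, 7) + (0 * m s(3, 8) + (0 * m s(4, 9) + (0 * m s(5, 7) + (1 * m s(6, 8) + (0 * m s(7, 9) + (0 * m s(8, 5) + (1 * m s(9, 6))))))))))))))) :=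
    hc (fun i => Nat.testBit 64 i.1) 6 0 rfl rfl
  have h7 : 2 ≤ 0 * m s(0, 1) + (0 * m s(1, 2) + (0 * m s(2, 3) + (0 * m s(3, 4) + (0 * m s(4, 0) + (0 * m s(0, 5) + (0 * m s(1, 6) + (1 * m s(2, 7) + (0 * m s(3, 8) + (0 * m s(4, 9) + (1 * m s(5, 7) + (0 * m s(6, 8) + (1 * m s(7, 9) + (0 * m s(8, 5) + (0 * m s(9, 6))))))))))))))) :=
    hc (fun i => Nat.testBit 128 i.1) 7 0 rfl rfl
  have h8 : 2 ≤ 0 * m s(0, 1) + (0 * m s(1, 2) + (0 * m s(2, 3) + (0 * m s(3, 4) + (0 * m s(4, 0) + (0 * m s(0, 5) + (0 * m s(1, 6) + (0 * m s(2, 7) + (1 * m s(3, 8) + (0 * m s(4, 9) + (0 * m s(5, 7) + (1 * m s(6, 8) + (0 * m s(7, 9) + (1 * m s(8, 5) + (0 * m s(9, 6))))))))))))))) :=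
    hc (fun i => Nat.testBit 256 i.1) 8 0 rfl rfl
  have h9 : 2 ≤ 0 * m s(0, 1) + (0 * m s(1, 2) + (0 * m s(2, 3) + (0 * m s(3, 4) + (0 * m s(4, 0) + (0 * m s(0, 5) + (0 * m s(1, 6) + (0 * m s(2, 7) + (0 * m s(3, 8) + (1 * m s(4, 9) + (0 * m s(5, 7) + (0 * m s(6, 8) + (1 * m s(7, 9) + (0 * m s(8, 5) + (1 * m s(9, 6))))))))))))))) :=
    hc (fun i => Nat.testBit 512 i.1) 9 0 rfl rfl
  have h10 : 2 ≤ 0 * m s(0, 1) + (1 * m s(1, 2) + (0 * m s(2, 3) + (0 * m s(3, 4) + (1 * m s(4, 0) + (1 * m s(0, 5) + (1 * m s(1, 6) + (0 * m s(2, 7) + (0 * m s(3, 8) + (0 * m s(4, 9) + (0 * m s(5, 7) + (0 * m s(6, 8) + (0 * m s(7, 9) + (0 * m s(8, 5) + (0 * m s(9, 6))))))))))))))) :=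
    hc (fun i => Nat.testBit 3 i.1) 0 2 rfl rfl
  have h11 : 2 ≤ 1 * m s(0, 1) + (0 * m s(1, 2) + (1 * m s(2, 3) + (0 * m s(3, 4) + (0 * m s(4, 0) + (0 * m s(0, 5) + (1 * m s(1, 6) + (1 * m s(2, 7) + (0 * m s(3, 8) + (0 * m s(4, 9) + (0 * m s(5, 7) + (0 * m s(6, 8) + (0 * m s(7, 9) + (0 * m s(8, 5) + (0 * m s(9, 6))))))))))))))) :=
    hc (fun i => Nat.testBit 6 i.1) 1 0 rfl rfl
  have h12 : 2 ≤ 0 * m s(0, 1) + (1 * m s(1, 2) + (0 * m s(2, 3) + (1 * m s(3, 4) + (0 * m s(4, 0) + (0 * m s(0, 5) + (0 * m s(1, 6) + (1 * m s(2, 7) + (1 * m s(3, 8) + (0 * m s(4, 9) + (0 * m s(5, 7) + (0 * m s(6, 8) + (0 * m s(7, 9) + (0 * m s(8, 5) + (0 * m s(9, 6))))))))))))))) :=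
    hc (fun i => Nat.testBit 12 i.1) 2 0 rfl rfl
  have h13 : 2 ≤ 0 * m s(0, 1) + (0 * m s(1, 2) + (1 * m s(2, 3) + (0 * m s(3, 4) + (1 * m s(4, 0) + (0 * m s(0, 5) + (0 * m s(1, 6) + (0 * m s(2, 7) + (1 * m s(3, 8) + (1 * m s(4, 9) + (0 * m s(5, 7) + (0 * m s(6, 8) + (0 * m s(7, 9) + (0 * m s(8, 5) + (0 * m s(9, 6))))))))))))))) :=
    hc (fun i => Nat.testBit 24 i.1) 3 0 rfl rfl
  have h14 : 2 ≤ 1 * m s(0, 1) + (0 * m s(1, 2) + (0 * m s(2, 3) + (1 * m s(3, 4) + (0 * m s(4, 0) + (1 * m s(0, 5) + (0 * m s(1, 6) + (0 * m s(2, 7) + (0 * m s(3, 8) + (1 * m s(4, 9) + (0 * m s(5, 7) + (0 * m s(6, 8) + (0 * m s(7, 9) + (0 * m s(8, 5) + (0 * m s(9, 6))))))))))))))) :=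
    hc (fun i => Nat.testBit 17 i.1) 4 1 rfl rfl
  have h15 : 2 ≤ 1 * m s(0, 1) + (0 * m s(1, 2) + (0 * m s(2, 3) + (0 * m s(3, 4) + (1 * m s(4, 0) + (0 * m s(0, 5) + (0 * m s(1, 6) + (0 * m s(2, 7) + (0 * m s(3, 8) + (0 * m s(4, 9) + (1 * m s(5, 7) + (0 * m s(6, 8) + (0 * m s(7, 9) + (1 * m s(8, 5) + (0 * m s(9, 6))))))))))))))) :=
    hc (fun i => Nat.testBit 33 i.1) 0 1 rfl rfl
  have h16 : 2 ≤ 1 * m s(0, 1) + (1 * m s(1, 2) + (0 * m s(2, 3) + (0 * m s(3, 4) + (0 * m s(4, 0) + (0 * m s(0, 5) + (0 * m s(1, 6) + (0 * m s(2, 7) + (0 * m s(3, 8) + (0 * m s(4, 9) + (0 * m s(5, 7) + (1 * m s(6, 8) + (0 * m s(7, 9) + (0 * m s(8, 5) + (1 * m s(9, 6))))))))))))))) :=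
    hc (fun i => Nat.testBit 66 i.1) 1 0 rfl rfl
  have h17 : 2 ≤ 0 * m s(0, 1) + (1 * m s(1, 2) + (1 * m s(2, 3) + (0 * m s(3, 4) + (0 * m s(4, 0) + (0 * m s(0, 5) + (0 * m s(1, 6) + (0 * m s(2, 7) + (0 * m s(3, 8) + (0 * m s(4, 9) + (1 * m s(5, 7) + (0 * m s(6, 8) + (1 * m s(7, 9) + (0 * m s(8, 5) + (0 * m s(9, 6))))))))))))))) :=
    hc (fun i => Nat.testBit 132 i.1) 2 0 rfl rfl
  have h18 : 2 ≤ 0 * m s(0, 1) + (0 * m s(1, 2) + (1 * m s(2, 3) + (1 * m s(3, 4) + (0 * m s(4, 0) + (0 * m s(0, 5) + (0 * m s(1, 6) + (0 * m s(2, 7) + (0 * m s(3, 8) + (0 * m s(4, 9) + (0 * m s(5, 7) + (1 * m s(6, 8) + (0 * m s(7, 9) + (1 * m s(8, 5) + (0 * m s(9, 6))))))))))))))) :=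
    hc (fun i => Nat.testBit 264 i.1) 3 0 rfl rfl
  have h19 : 2 ≤ 0 * m s(0, 1) + (0 * m s(1, 2) + (0 * m s(2, 3) + (1 * m s(3, 4) + (1 * m s(4, 0) + (0 * m s(0, 5) + (0 * m s(1, 6) + (0 * m s(2, 7) + (0 * m s(3, 8) + (0 * m s(4, 9) + (0 * m s(5, 7) + (0 * m s(6, 8) + (1 * m s(7, 9) + (0 * m s(8, 5) + (1 * m s(9, 6))))))))))))))) :=
    hc (fun i => Nat.testBit 528 i.1) 4 0 rfl rfl
  have h20 : 2 ≤ 0 * m s(0, 1) + (0 * m s(1, 2) + (0 * m s(2, 3) + (0 * m s(3, 4) + (0 * m s(4, 0) + (1 * m s(0, 5) + (0 * m s(1, 6) + (1 * m s(2, 7) + (0 * m s(3, 8) + (0 * m s(4, 9) + (0 * m s(5, 7) + (0 * m s(6, 8) + (1 * m s(7, 9) + (1 * m s(8, 5) + (0 * m s(9, 6))))))))))))))) :=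
    hc (fun i => Nat.testBit 160 i.1) 5 0 rfl rfl
  have h21 : 2 ≤ 0 * m s(0, 1) + (0 * m s(1, 2) + (0 * m s(2, 3) + (0 * m s(3, 4) + (0 * m s(4, 0) + (0 * m s(0, 5) + (1 * m s(1, 6) + (0 * m s(2, 7) + (1 * m s(3, 8) + (0 * m s(4, 9) + (0 * m s(5, 7) + (0 * m s(6, 8) + (0 * m s(7, 9) + (1 * m s(8, 5) + (1 * m s(9, 6))))))))))))))) :=
    hc (fun i => Nat.testBit 320 i.1) 6 0 rfl rfl
  have h22 : 2 ≤ 0 * m s(0, 1) + (0 * m s(1, 2) + (0 * m s(2, 3) + (0 * m s(3, 4) + (0 * m s(4, 0) + (0 * m s(0, 5) + (0 * m s(1, 6) + (1 * m s(2, 7) + (0 * m s(3, 8) + (1 * m s(4, 9) + (1 * m s(5, 7) + (0 * m s(6, 8) + (0 * m s(7, 9) + (0 * m s(8, 5) + (1 * m s(9, 6))))))))))))))) :=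
    hc (fun i => Nat.testBit 640 i.1) 7 0 rfl rfl
  have h23 : 2 ≤ 0 * m s(0, 1) + (0 * m s(1, 2) + (0 * m s(2, 3) + (0 * m s(3, 4) + (0 * m s(4, 0) + (1 * m s(0, 5) + (0 * m s(1, 6) + (0 * m s(2, 7) + (1 * m s(3, 8) + (0 * m s(4, 9) + (1 * m s(5, 7) + (1 * m s(6, 8) + (0 * m s(7, 9) + (0 * m s(8, 5) + (0 * m s(9, 6))))))))))))))) :=
    hc (fun i => Nat.testBit 288 i.1) 8 0 rfl rfl
  have h24 : 2 ≤ 0 * m s(0, 1) + (0 * m s(1, 2) + (0 * m s(2, 3) + (0 * m s(3, 4) + (0 * m s(4, 0) + (0 * m s(0, 5) + (1 * m s(1, 6) + (0 * m s(2, 7) + (0 * m s(3, 8) + (1 * m s(4, 9) + (0 * m s(5, 7) + (1 * m s(6, 8) + (1 * m s(7, 9) + (0 * m s(8, 5) + (0 * m s(9, 6))))))))))))))) :=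
    hc (fun i => Nat.testBit 576 i.1) 9 0 rfl rfl
  have h25 : 2 ≤ 1 * m s(0, 1) + (0 * m s(1, 2) + (1 * m s(2, 3) + (0 * m s(3, 4) + (0 * m s(4, 0) + (0 * m s(0, 5) + (0 * m s(1, 6) + (0 * m s(2, 7) + (0 * m s(3, 8) + (1 * m s(4, 9) + (1 * m s(5, 7) + (1 * m s(6, 8) + (0 * m s(7, 9) + (0 * m s(8, 5) + (0 * m s(9, 6))))))))))))))) :=
    hc (fun i => Nat.testBit 313 i.1) 0 1 rfl rfl
  have h26 : 2 ≤ 1 * m s(0, 1) + (0 * m s(1, 2) + (0 * m s(2, 3) + (1 * m s(3, 4) + (0 * m s(4, 0) + (0 * m s(0, 5) + (0 * m s(1, 6) + (1 * m s(2, 7) + (0 * m s(3, 8) + (0 * m s(4, 9) + (0 * m s(5, 7) + (0 * m s(6, 8) + (0 * m s(7, 9) + (1 * m s(8, 5) + (1 * m s(9, 6))))))))))))))) :=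
    hc (fun i => Nat.testBit 689 i.1) 0 1 rfl rfl
  have h27 : 2 ≤ 0 * m s(0, 1) + (1 * m s(1, 2) + (0 * m s(2, 3) + (0 * m s(3, 4) + (1 * m s(4, 0) + (0 * m s(0, 5) + (0 * m s(1, 6) + (0 * m s(2, 7) + (1 * m s(3, 8) + (0 * m s(4, 9) + (1 * m s(5, 7) + (0 * m s(6, 8) + (0 * m s(7, 9) + (0 * m s(8, 5) + (1 * m s(9, 6))))))))))))))) :=
    hc (fun i => Nat.testBit 355 i.1) 0 2 rfl rfl
  have h28 : 2 ≤ 0 * m s(0, 1) + (0 * m s(1, 2) + (1 * m s(2, 3) + (0 * m s(3, 4) + (1 * m s(4, 0) + (0 * m s(0, 5) + (1 * m s(1, 6) + (0 * m s(2, 7) + (0 * m s(3, 8) + (0 * m s(4, 9) + (0 * m s(5, 7) + (0 * m s(6, 8) + (1 * m s(7, 9) + (1 * m s(8, 5) + (0 * m s(9, 6))))))))))))))) :=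
    hc (fun i => Nat.testBit 167 i.1) 0 3 rfl rfl
  have h29 : 2 ≤ 0 * m s(0, 1) + (1 * m s(1, 2) + (0 * m s(2, 3) + (1 * m s(3, 4) + (0 * m s(4, 0) + (1 * m s(0, 5) + (0 * m s(1, 6) + (0 * m s(2, 7) + (0 * m s(3, 8) + (0 * m s(4, 9) + (0 * m s(5, 7) + (1 * m s(6, 8) + (1 * m s(7, 9) + (0 * m s(8, 5) + (0 * m s(9, 6))))))))))))))) :=
    hc (fun i => Nat.testBit 595 i.1) 0 2 rfl rfl
  have h30 : 2 ≤ 0 * m s(0, 1) + (0 * m s(1, 2) + (0 * m s(2, 3) + (0 * m s(3, 4) + (0 * m s(4, 0) + (1 * m s(0, 5) + (1 * m s(1, 6) + (1 * m s(2, 7) + (1 * m s(3, 8) + (1 * m s(4, 9) + (0 * m s(5, 7) + (0 * m s(6, 8) + (0 * m s(7, 9) + (0 * m s(8, 5) + (0 * m s(9, 6))))))))))))))) :=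
    hc (fun i => Nat.testBit 31 i.1) 0 5 rfl rfl
  simp only [one_mul, zero_mul, zero_add, add_zero] at h0 h1 h2 h3 h4 h5 h6 h7 h8 h9 h10 h11 h12 h13 h14 h15 h16 h17 h18 h19 h20 h21 h22 h23 h24 h25 h26 h27 h28 h29 h30
  refine petersen_arith (m s(0, 1)) (m s(1, 2)) (m s(2, 3)) (m s(3, 4)) (m s(4, 0)) (m s(0, 5)) (m s(1, 6)) (m s(2, 7)) (m s(3, 8)) (m s(4, 9)) (m s(5, 7)) (m s(6, 8)) (m s(7, 9)) (m s(8, 5)) (m s(9, 6))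
    (by clear h1 h2 h3 h4 h5 h6 h7 h8 h9 h10 h11 h12 h13 h14 h15 h16 h17 h18 h19 h20 h21 h22 h23 h24 h25 h26 h27 h28 h29 h30 hlt; omega)
    (by clear h0 h2 h3 h4 h5 h6 h7 h8 h9 h10 h11 h12 h13 h14 h15 h16 h17 h18 h19 h20 h21 h22 h23 h24 h25 h26 h27 h28 h29 h30 hlt; omega)
    (by clear h0 h1 h3 h4 h5 h6 h7 h8 h9 h10 h11 h12 h13 h14 h15 h16 h17 h18 h19 h20 h21 h22 h23 h24 h25 h26 h27 h28 h29 h30 hlt; omega)
    (by clear h0 h1 h2 h4 h5 h6 h7 h8 h9 h10 h11 h12 h13 h14 h15 h16 h17 h18 h19 h20 h21 h22 h23 h24 h25 h26 h27 h28 h29 h30 hlt; omega)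
    (by clear h0 h1 h2 h3 h5 h6 h7 h8 h9 h10 h11 h12 h13 h14 h15 h16 h17 h18 h19 h20 h21 h22 h23 h24 h25 h26 h27 h28 h29 h30 hlt; omega)
    (by clear h0 h1 h2 h3 h4 h6 h7 h8 h9 h10 h11 h12 h13 h14 h15 h16 h17 h18 h19 h20 h21 h22 h23 h24 h25 h26 h27 h28 h29 h30 hlt; omega)
    (by clear h0 h1 h2 h3 h4 h5 h7 h8 h9 h10 h11 h12 h13 h14 h15 h16 h17 h18 h19 h20 h21 h22 h23 h24 h25 h26 h27 h28 h29 h30 hlt; omega)
    (by clear h0 h1 h2 h3 h4 h5 h6 h8 h9 h10 h11 h12 h13 h14 h15 h16 h17 h18 h19 h20 h21 h22 h23 h24 h25 h26 h27 h28 h29 h30 hlt; omega)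
    (by clear h0 h1 h2 h3 h4 h5 h6 h7 h9 h10 h11 h12 h13 h14 h15 h16 h17 h18 h19 h20 h21 h22 h23 h24 h25 h26 h27 h28 h29 h30 hlt; omega)
    (by clear h0 h1 h2 h3 h4 h5 h6 h7 h8 h10 h11 h12 h13 h14 h15 h16 h17 h18 h19 h20 h21 h22 h23 h24 h25 h26 h27 h28 h29 h30 hlt; omega)
    (by clear h0 h1 h2 h3 h4 h5 h6 h7 h8 h9 h11 h12 h13 h14 h15 h16 h17 h18 h19 h20 h21 h22 h23 h24 h25 h26 h27 h28 h29 h30 hlt; omega)
    (by clear h0 h1 h2 h3 h4 h5 h6 h7 h8 h9 h10 h12 h13 h14 h15 h16 h17 h18 h19 h20 h21 h22 h23 h24 h25 h26 h27 h28 h29 h30 hlt; omega)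
    (by clear h0 h1 h2 h3 h4 h5 h6 h7 h8 h9 h10 h11 h13 h14 h15 h16 h17 h18 h19 h20 h21 h22 h23 h24 h25 h26 h27 h28 h29 h30 hlt; omega)
    (by clear h0 h1 h2 h3 h4 h5 h6 h7 h8 h9 h10 h11 h12 h14 h15 h16 h17 h18 h19 h20 h21 h22 h23 h24 h25 h26 h27 h28 h29 h30 hlt; omega)
    (by clear h0 h1 h2 h3 h4 h5 h6 h7 h8 h9 h10 h11 h12 h13 h15 h16 h17 h18 h19 h20 h21 h22 h23 h24 h25 h26 h27 h28 h29 h30 hlt; omega)
    (by clear h0 h1 h2 h3 h4 h5 h6 h7 h8 h9 h10 h11 h12 h13 h14 h16 h17 h18 h19 h20 h21 h22 h23 h24 h25 h26 h27 h28 h29 h30 hlt; omega)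
    (by clear h0 h1 h2 h3 h4 h5 h6 h7 h8 h9 h10 h11 h12 h13 h14 h15 h17 h18 h19 h20 h21 h22 h23 h24 h25 h26 h27 h28 h29 h30 hlt; omega)
    (by clear h0 h1 h2 h3 h4 h5 h6 h7 h8 h9 h10 h11 h12 h13 h14 h15 h16 h18 h19 h20 h21 h22 h23 h24 h25 h26 h27 h28 h29 h30 hlt; omega)
    (by clear h0 h1 h2 h3 h4 h5 h6 h7 h8 h9 h10 h11 h12 h13 h14 h15 h16 h17 h19 h20 h21 h22 h23 h24 h25 h26 h27 h28 h29 h30 hlt; omega)
    (by clear h0 h1 h2 h3 h4 h5 h6 h7 h8 h9 h10 h11 h12 h13 h14 h15 h16 h17 h18 h20 h21 h22 h23 h24 h25 h26 h27 h28 h29 h30 hlt; omega)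
    (by clear h0 h1 h2 h3 h4 h5 h6 h7 h8 h9 h10 h11 h12 h13 h14 h15 h16 h17 h18 h19 h21 h22 h23 h24 h25 h26 h27 h28 h29 h30 hlt; omega)
    (by clear h0 h1 h2 h3 h4 h5 h6 h7 h8 h9 h10 h11 h12 h13 h14 h15 h16 h17 h18 h19 h20 h22 h23 h24 h25 h26 h27 h28 h29 h30 hlt; omega)
    (by clear h0 h1 h2 h3 h4 h5 h6 h7 h8 h9 h10 h11 h12 h13 h14 h15 h16 h17 h18 h19 h20 h21 h23 h24 h25 h26 h27 h28 h29 h30 hlt; omega)
    (by clear h0 h1 h2 h3 h4 h5 h6 h7 h8 h9 h10 h11 h12 h13 h14 h15 h16 h17 h18 h19 h20 h21 h22 h24 h25 h26 h27 h28 h29 h30 hlt; omega)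
    (by clear h0 h1 h2 h3 h4 h5 h6 h7 h8 h9 h10 h11 h12 h13 h14 h15 h16 h17 h18 h19 h20 h21 h22 h23 h25 h26 h27 h28 h29 h30 hlt; omega)
    (by clear h0 h1 h2 h3 h4 h5 h6 h7 h8 h9 h10 h11 h12 h13 h14 h15 h16 h17 h18 h19 h20 h21 h22 h23 h24 h26 h27 h28 h29 h30 hlt; omega)
    (by clear h0 h1 h2 h3 h4 h5 h6 h7 h8 h9 h10 h11 h12 h13 h14 h15 h16 h17 h18 h19 h20 h21 h22 h23 h24 h25 h27 h28 h29 h30 hlt; omega)
    (by clear h0 h1 h2 h3 h4 h5 h6 h7 h8 h9 h10 h11 h12 h13 h14 h15 h16 h17 h18 h19 h20 h21 h22 h23 h24 h25 h26 h28 h29 h30 hlt; omega)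
    (by clear h0 h1 h2 h3 h4 h5 h6 h7 h8 h9 h10 h11 h12 h13 h14 h15 h16 h17 h18 h19 h20 h21 h22 h23 h24 h25 h26 h27 h29 h30 hlt; omega)
    (by clear h0 h1 h2 h3 h4 h5 h6 h7 h8 h9 h10 h11 h12 h13 h14 h15 h16 h17 h18 h19 h20 h21 h22 h23 h24 h25 h26 h27 h28 h30 hlt; omega)
    (by clear h0 h1 h2 h3 h4 h5 h6 h7 h8 h9 h10 h11 h12 h13 h14 h15 h16 h17 h18 h19 h20 h21 h22 h23 h24 h25 h26 h27 h28 h29 hlt; omega)
    (by clear h0 h1 h2 h3 h4 h5 h6 h7 h8 h9 h10 h11 h12 h13 h14 h15 h16 h17 h18 h19 h20 h21 h22 h23 h24 h25 h26 h27 h28 h29 h30; omega)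

/-- `c₂(P) = 11`. -/
theorem petersen_c2 : c2 petersen = 11 := by
  have h1 : c2 petersen ≤ ∑ e, mEx e := Nat.sInf_le ⟨mEx, mEx_twoConn, rfl⟩
  have h2 : 11 ≤ c2 petersen := by
    refine le_csInf ⟨_, mEx, mEx_twoConn, rfl⟩ ?_
    rintro c ⟨m, hm, hc⟩
    rw [hc]
    exact eleven_le m hm
  rw [mEx_sum] at h1
  exact le_antisymm h1 h2

theorem petersen_not_hamiltonian : ¬ petersen.IsHamiltonian := by
  intro h
  have h1 := c2_le_of_isHamiltonian petersen h (by simp)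
  rw [petersen_c2] at h1
  simp at h1

end Pool.Agent.R547.EQ
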