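import Pool.Agent.R547.EQ.Algebra

set_option autoImplicit false
set_option linter.unusedSectionVars false

/-! # The choice of the parameters: Hall's theorem and the cut condition -/

namespace Pool.Agent.R547.EQ

open Finset Matrix
open scoped Classical

variable {V E : Type} [Fintype V] [Fintype E] (ends : E → V × V) {r : ℕ} (v₀ v : V)

theorem inv_apply_self_aux {α : Type} (τ : Equiv.Perm α) (a : α) : τ⁻¹ (τ a) = a :=
  τ.symm_apply_apply a

/-- The edges with exactly one end in `U`. -/
noncomputable def crossing (U : Finset V) : Finset E :=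
  univ.filter fun f => ((ends f).1 ∈ U ∧ (ends f).2 ∉ U) ∨ ((ends f).1 ∉ U ∧ (ends f).2 ∈ U)

/-- The allowed successors. -/
def Rel : E ⊕ Fin r → E ⊕ Fin r → Prop
  | Sum.inl f, Sum.inl g => ∃ u, Inc ends f u ∧ Inc ends g u
  | Sum.inl f, Sum.inr _ => Inc ends f v₀
  | Sum.inr _, Sum.inl g => Inc ends g v
  | Sum.inr _, Sum.inr _ => False

theorem exists_tau (hcut : ∀ U : Finset V, U.Nonempty → U ≠ univ → r ≤ (crossing ends U).card)
    (hV : ∀ u : V, ∃ w, w ≠ u) :
    ∃ τ : Equiv.Perm (E ⊕ Fin r), ∀ a, Rel ends v₀ v a (τ a) := by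
  suffices h : ∃ τ : E ⊕ Fin r → E ⊕ Fin r, Function.Injective τ ∧ ∀ a, Rel ends v₀ v a (τ a) by
    obtain ⟨τ, hτ, h⟩ := h
    exact ⟨Equiv.ofBijective τ (Finite.injective_iff_bijective.1 hτ), h⟩
  rw [← Fintype.all_card_le_filter_rel_iff_exists_injective (Rel (r := r) ends v₀ v)]
  intro A
  set N : Finset (E ⊕ Fin r) := univ.filter fun b => ∃ a ∈ A, Rel ends v₀ v a b with hN
  rw [← Finset.card_toLeft_add_card_toRight (u := A), ← Finset.card_toLeft_add_card_toRight (u := N)]
  have hsub : A.toLeft ⊆ N.toLeft := by
    intro f hf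
    rw [Finset.mem_toLeft] at hf ⊢
    rw [hN, Finset.mem_filter]
    exact ⟨mem_univ _, Sum.inl f, hf, ⟨(ends f).1, Or.inl rfl, Or.inl rfl⟩⟩
  by_cases hR : A.toRight.Nonempty
  · obtain ⟨i, hi⟩ := hR
    rw [Finset.mem_toRight] at hi
    have hAr : A.toRight.card ≤ r := by
      simpa using Finset.card_le_univ A.toRight
    by_cases h0 : ∃ f ∈ A.toLeft, Inc ends f v₀
    · obtain ⟨f, hf, hf0⟩ := h0
      rw [Finset.mem_toLeft] at hf
      have hNr : N.toRight = univ := by
        rw [Finset.eq_univ_iff_forall]
        intro j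
        rw [Finset.mem_toRight, hN, Finset.mem_filter]
        exact ⟨mem_univ _, Sum.inl f, hf, hf0⟩
      rw [hNr]
      have := Finset.card_le_card hsub
      simp only [Finset.card_univ, Fintype.card_fin]
      omega
    · push Not at h0
      obtain ⟨C, hC1, hC2, hC3⟩ : ∃ C : Finset E, r ≤ C.card ∧ Disjoint A.toLeft C ∧
          C ⊆ N.toLeft := by
        by_cases hv : v = v₀
        · refine ⟨crossing ends {v₀}, hcut _ ⟨v₀, by simp⟩ ?_, ?_, ?_⟩
          · intro h
            obtain ⟨w, hw⟩ := hV v₀
            have := h ▸ mem_univ w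
            simp at this
            exact hw this
          · rw [Finset.disjoint_left]
            intro f hf hf2
            apply h0 f hf
            rw [crossing, Finset.mem_filter] at hf2
            simp only [Finset.mem_singleton, mem_univ, true_and] at hf2
            rcases hf2 with h | h
            · exact Or.inl h.1
            · exact Or.inr h.2
          · intro f hf2
            rw [crossing, Finset.mem_filter] at hf2
            simp only [Finset.mem_singleton, mem_univ, true_and] at hf2
            rw [Finset.mem_toLeft, hN, Finset.mem_filter]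
            refine ⟨mem_univ _, Sum.inr i, hi, ?_⟩
            change Inc ends f v
            rw [hv]
            rcases hf2 with h | h
            · exact Or.inl h.1
            · exact Or.inr h.2
        · set U : Finset V := univ.filter fun u => u = v ∨ ∃ f ∈ A.toLeft, Inc ends f u with hU
          have hmemU : ∀ u, u ∈ U ↔ (u = v ∨ ∃ f ∈ A.toLeft, Inc ends f u) := by
            intro u
            rw [hU, Finset.mem_filter]
            simp
          refine ⟨crossing ends U, hcut U ⟨v, (hmemU v).2 (Or.inl rfl)⟩ ?_, ?_, ?_⟩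
          · intro h
            have h1 : v₀ ∈ U := h ▸ mem_univ v₀
            rcases (hmemU v₀).1 h1 with h2 | ⟨f, hf, hf2⟩
            · exact hv h2.symm
            · exact h0 f hf hf2
          · rw [Finset.disjoint_left]
            intro f hf hf2
            rw [crossing, Finset.mem_filter] at hf2
            have h1 : (ends f).1 ∈ U := (hmemU _).2 (Or.inr ⟨f, hf, Or.inl rfl⟩)
            have h2 : (ends f).2 ∈ U := (hmemU _).2 (Or.inr ⟨f, hf, Or.inr rfl⟩)
            rcases hf2.2 with h | h
            · exact h.2 h2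
            · exact h.1 h1
          · intro f hf2
            rw [crossing, Finset.mem_filter] at hf2
            obtain ⟨u, hu, hfu⟩ : ∃ u ∈ U, Inc ends f u := by
              rcases hf2.2 with h | h
              · exact ⟨_, h.1, Or.inl rfl⟩
              · exact ⟨_, h.2, Or.inr rfl⟩
            rw [Finset.mem_toLeft, hN, Finset.mem_filter]
            refine ⟨mem_univ _, ?_⟩
            rcases (hmemU u).1 hu with h | ⟨g, hg, hgu⟩
            · exact ⟨Sum.inr i, hi, h ▸ hfu⟩
            · rw [Finset.mem_toLeft] at hg
              exact ⟨Sum.inl g, hg, ⟨u, hgu, hfu⟩⟩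
      have h1 := Finset.card_le_card (Finset.union_subset hsub hC3)
      rw [Finset.card_union_of_disjoint hC2] at h1
      omega
  · rw [Finset.not_nonempty_iff_eq_empty] at hR
    rw [hR, Finset.card_empty]
    have := Finset.card_le_card hsub
    omega

theorem special (τ : Equiv.Perm (E ⊕ Fin r)) (hτ : ∀ a, Rel ends v₀ v a (τ a)) :
    ∃ (w : E → E → ℤ) (η : E → Fin r → ℤ), pdet ends v₀ w η v ≠ 0 := by
  set w : E → E → ℤ := fun f g => if τ (Sum.inl f) = Sum.inl g then 1 else 0 with hw
  set η : E → Fin r → ℤ := fun f i => if τ (Sum.inl f) = Sum.inr i then 1 else 0 with hη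
  refine ⟨w, η, pdet_ne_zero ends v₀ w η v ?_⟩
  intro x hx
  set y : E → ℤ := Tmat ends v₀ w η *ᵥ x with hy
  have hrow : ∀ f, (Smat ends w *ᵥ y) f = (Smat ends w).det * (Hmat ends v₀ η *ᵥ x) f :=
    fun f => Smat_Tmat ends v₀ w η x f
  set Z : E ⊕ Fin r → Prop := fun a => ∀ g, a = Sum.inl g → y g = 0 with hZ
  -- the left-hand side of a row
  have hleft : ∀ f, Z (Sum.inl f) → Z (τ⁻¹ (Sum.inl f)) → (Smat ends w *ᵥ y) f =
      ∑ g, (if Adje ends f g then w f g * y g else 0) := by
    intro f h1 h2
    have hyf : y f = 0 := h1 f rfl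
    rw [Smat_mulVec, hyf, mul_zero, zero_add]
    refine Finset.sum_congr rfl fun g _ => ?_
    by_cases hfg : Adje ends f g
    · rw [if_pos hfg, if_pos hfg, add_mul]
      have : w g f * y g = 0 := by
        by_cases hgf : τ (Sum.inl g) = Sum.inl f
        · rw [h2 g (by rw [← hgf, inv_apply_self_aux]), mul_zero]
        · rw [hw]
          simp only [if_neg hgf, zero_mul]
      rw [this, add_zero]
    · rw [if_neg hfg, if_neg hfg]
  -- propagation of zeros
  have hstep : ∀ a, Z a → Z (τ a) → Z (τ (τ a)) := by
    intro a ha hb g hg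
    cases hbb : τ a with
    | inr i =>
      rw [hbb] at hg
      have := hτ (Sum.inr i)
      rw [hg] at this
      exact hx g this
    | inl f =>
      rw [hbb] at hg hb
      have ha' : τ⁻¹ (Sum.inl f) = a := by rw [← hbb, inv_apply_self_aux]
      have h1 := hleft f hb (by rw [ha']; exact ha)
      rw [hrow f] at h1
      have h2 : (Hmat ends v₀ η *ᵥ x) f = 0 := by
        rw [Matrix.mulVec, dotProduct]
        refine Finset.sum_eq_zero fun i _ => ?_
        have : η f i = 0 := by
          rw [hη]
          simp only [hg]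
          rw [if_neg (by simp)]
        simp [Hmat, this]
      rw [h2, mul_zero] at h1
      by_cases hfg : f = g
      · rw [← hfg]
        exact hb f rfl
      · have hadj : Adje ends f g := by
          have := hτ (Sum.inl f)
          rw [hg] at this
          exact ⟨hfg, this⟩
        rw [Finset.sum_eq_single g] at h1
        · rw [if_pos hadj, hw] at h1
          simp only [hg, if_true, one_mul] at h1
          exact h1.symm
        · intro g' _ hg'
          have : w f g' = 0 := by
            rw [hw]
            simp only [hg]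
            rw [if_neg (fun h => hg' (Sum.inl.inj h).symm)]
          rw [this, zero_mul, ite_self]
        · intro h
          exact absurd (mem_univ g) h
  funext j
  have hiter : ∀ k : ℕ, Z ((τ ^ k) (Sum.inr j)) ∧ Z ((τ ^ (k + 1)) (Sum.inr j)) := by
    intro k
    induction k with
    | zero =>
      refine ⟨?_, ?_⟩
      · intro g hg
        simp at hg
      · intro g hg
        rw [zero_add, pow_one] at hg
        have := hτ (Sum.inr j)
        rw [hg] at this
        exact hx g this
    | succ k ih =>
      refine ⟨ih.2, ?_⟩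
      have h1 : (τ ^ (k + 1 + 1)) (Sum.inr j) = τ (τ ((τ ^ k) (Sum.inr j))) := by
        rw [pow_succ', pow_succ', Equiv.Perm.mul_apply, Equiv.Perm.mul_apply]
      have h2 : (τ ^ (k + 1)) (Sum.inr j) = τ ((τ ^ k) (Sum.inr j)) := by
        rw [pow_succ', Equiv.Perm.mul_apply]
      rw [h1]
      refine hstep _ ih.1 ?_
      rw [← h2]
      exact ih.2
  have hm : 0 < orderOf τ := orderOf_pos τ
  have hpow : ∀ a, (τ ^ (2 * orderOf τ)) a = a := by
    intro a
    rw [mul_comm, pow_mul, pow_orderOf_eq_one, one_pow, Equiv.Perm.one_apply]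
  obtain ⟨k, hk⟩ : ∃ k, 2 * orderOf τ = k + 2 := ⟨2 * orderOf τ - 2, by omega⟩
  -- the predecessor of `inr j`
  set b := (τ ^ (k + 1)) (Sum.inr j) with hb
  have hτb : τ b = Sum.inr j := by
    rw [hb, ← Equiv.Perm.mul_apply, ← pow_succ', show k + 1 + 1 = k + 2 from rfl, ← hk]
    exact hpow _
  have hZa : Z (τ⁻¹ b) := by
    have : τ⁻¹ b = (τ ^ k) (Sum.inr j) := by
      rw [hb, pow_succ', Equiv.Perm.mul_apply, inv_apply_self_aux]
    rw [this]
    exact (hiter k).1
  have hZb : Z b := (hiter k).2
  cases hbb : b with
  | inr i =>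
    exfalso
    have := hτ (Sum.inr i)
    rw [← hbb, hτb, hbb] at this
    exact this
  | inl f =>
    rw [hbb] at hZa hZb hτb
    have h1 := hleft f hZb hZa
    rw [hrow f] at h1
    have h2 : ∑ g, (if Adje ends f g then w f g * y g else 0) = 0 := by
      refine Finset.sum_eq_zero fun g _ => ?_
      have : w f g = 0 := by
        rw [hw]
        simp only [hτb]
        rw [if_neg (by simp)]
      rw [this, zero_mul, ite_self]
    rw [h2] at h1
    have h3 : (Hmat ends v₀ η *ᵥ x) f = x j := by
      rw [Matrix.mulVec, dotProduct, Finset.sum_eq_single j]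
      · have hinc : Inc ends f v₀ := by
          have := hτ (Sum.inl f)
          rw [hτb] at this
          exact this
        simp [Hmat, hinc, hη, hτb]
      · intro i _ hij
        have : η f i = 0 := by
          rw [hη]
          simp only [hτb]
          rw [if_neg (fun h => hij (Sum.inr.inj h).symm)]
        simp [Hmat, this]
      · intro h
        exact absurd (mem_univ j) h
    rw [h3] at h1
    rcases mul_eq_zero.1 h1 with h | h
    · exact absurd h (Smat_det_ne_zero ends w)
    · exact h

theorem exists_param (hcut : ∀ U : Finset V, U.Nonempty → U ≠ univ → r ≤ (crossing ends U).card)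
    (hV : ∀ u : V, ∃ w, w ≠ u) :
    ∃ (w : E → E → ℤ) (η : E → Fin r → ℤ), ∀ v, pdet ends v₀ w η v ≠ 0 := by
  refine exists_generic ends v₀ fun v => ?_
  obtain ⟨τ, hτ⟩ := exists_tau ends v₀ v hcut hV
  exact special ends v₀ v τ hτ

end Pool.Agent.R547.EQ
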